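import Mathlib

/-!
The game behind the unboundedness of `K(C(n) | n, K(n))`: the process and its combinatorics.

`a x t`, `b x t`, `q z t` are approximations from above to `K x`, `C x`, `Q z`.
The game with parameter `d` works in blocks `cd d g s w`, `w < 2^(ii g)`: `g` is the number of the
subgame, `s` the number of the stage.
-/

set_option autoImplicit false
open Finset

namespace Pool.Agent.TH676.CK

/-! ### parameters -/

/-- the gain we want on every surviving element -/
def rr (d : ℕ) : ℕ := 2*d+6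
/-- number of rounds -/
def nR (m d : ℕ) : ℕ := 2^(m+1) * rr d + 1
def ee (m d : ℕ) : ℕ := nR m d + 1
/-- size of a jump between levels -/
def JJ (m d : ℕ) : ℕ := 2*d + 4 + ee m d
def BB (m d : ℕ) : ℕ := nR m d * JJ m d + 2*d + 2
def k0 (m d : ℕ) : ℕ := 2^(BB m d) + 3
def ie (m d g : ℕ) : ℕ := (g+1) * (nR m d * JJ m d)
/-- logarithm of the size of the blocks of subgame `g` -/
def ii (m d g : ℕ) : ℕ := ie m d g + ee m d
/-- the plain level in round `j` -/
def vv (m d g j : ℕ) : ℕ := ii m d g + BB m d - j * JJ m d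
/-- the prefix level in stage `s` -/
def kx (m d g s : ℕ) : ℕ := ii m d g + (k0 m d - s) + 2*d + 1
/-- the elements -/
def cd (d g s w : ℕ) : ℕ := Nat.pair (Nat.pair d g) (Nat.pair s w)

lemma cd_inj {d g s w d' g' s' w' : ℕ} (h : cd d g s w = cd d' g' s' w') :
    d = d' ∧ g = g' ∧ s = s' ∧ w = w' := by
  unfold cd at h
  have h1 := Nat.pair_eq_pair.1 h
  have h2 := Nat.pair_eq_pair.1 h1.1
  have h3 := Nat.pair_eq_pair.1 h1.2
  exact ⟨h2.1, h2.2, h3.1, h3.2⟩

lemma JJ_pos (m d : ℕ) : 0 < JJ m d := by unfold JJ; omega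

lemma mul_JJ_le {m d j : ℕ} (hj : j ≤ nR m d) : j * JJ m d + (2*d+2) ≤ BB m d := by
  unfold BB
  have := Nat.mul_le_mul_right (JJ m d) hj
  omega

lemma vv_anti {m d g j j' : ℕ} (h : j ≤ j') : vv m d g j' ≤ vv m d g j := by
  unfold vv
  have := Nat.mul_le_mul_right (JJ m d) h
  omega

lemma vv_succ_lt {m d g j : ℕ} (hj : j < nR m d) : vv m d g (j+1) < vv m d g j := by
  unfold vv
  have h1 := mul_JJ_le (m := m) (d := d) (j := j+1) hj
  have h2 := JJ_pos m d
  rw [Nat.add_mul] at h1 ⊢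
  omega

/-- the plain levels of different rounds (and subgames) are different -/
lemma vv_inj {m d g j g' j' : ℕ} (hj : j < nR m d) (hj' : j' < nR m d)
    (h : vv m d g j = vv m d g' j') : g = g' ∧ j = j' := by
  have h1 := mul_JJ_le (m := m) (d := d) hj.le
  have h2 := mul_JJ_le (m := m) (d := d) hj'.le
  have hJ := JJ_pos m d
  have h3 : (g+1) * (nR m d * JJ m d) + j' * JJ m d = (g'+1) * (nR m d * JJ m d) + j * JJ m d := by
    unfold vv ii ie at h
    omega
  have h4 : ((g+1) * nR m d + j') * JJ m d = ((g'+1) * nR m d + j) * JJ m d := by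
    calc ((g+1) * nR m d + j') * JJ m d = (g+1) * (nR m d * JJ m d) + j' * JJ m d := by ring
      _ = (g'+1) * (nR m d * JJ m d) + j * JJ m d := h3
      _ = _ := by ring
  have h5 := Nat.eq_of_mul_eq_mul_right hJ h4
  have h6 : g = g' := by
    rcases Nat.lt_trichotomy g g' with hl | hl | hl
    · exfalso
      have h7 : (g+1+1) * nR m d ≤ (g'+1) * nR m d := Nat.mul_le_mul_right _ (by omega)
      have h8 : (g+1+1) * nR m d = (g+1) * nR m d + nR m d := by ring
      omega
    · exact hl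
    · exfalso
      have h7 : (g'+1+1) * nR m d ≤ (g+1) * nR m d := Nat.mul_le_mul_right _ (by omega)
      have h8 : (g'+1+1) * nR m d = (g'+1) * nR m d + nR m d := by ring
      omega
  subst h6
  exact ⟨rfl, by omega⟩

lemma two_mul_nR_le (m d : ℕ) : 2 * nR m d ≤ 2 ^ ee m d := by
  unfold ee
  have : nR m d < 2 ^ nR m d := Nat.lt_two_pow_self
  rw [pow_succ]; omega

lemma nR_pos (m d : ℕ) : 0 < nR m d := by unfold nR; omega

/-! ### the process -/

/-- states: number of the subgame, of the stage, of the round, the live elements, the weight -/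
abbrev St := ℕ × ℕ × ℕ × List ℕ × ℕ

section process
variable (m : ℕ) (a b q : ℕ → ℕ → ℕ)

/-- the element `w` is ready -/
def okw (d g s j t w : ℕ) : Bool :=
  decide (a (cd d g s w) t ≤ kx m d g s) && (decide (b (cd d g s w) t ≤ vv m d g j) &&
    decide (q (Nat.pair (b (cd d g s w) t) (Nat.pair (cd d g s w) (a (cd d g s w) t))) t ≤ m))

/-- the plain complexity of the element `w` has fallen by more than a jump -/
def dw (d g s j t w : ℕ) : Bool := decide (b (cd d g s w) t ≤ vv m d g (j+1))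

def step (d t : ℕ) (σ : St) : St :=
  if σ.2.2.1 < nR m d then
    if (σ.2.2.2.1.filter fun w => !(okw m a b q d σ.1 σ.2.1 σ.2.2.1 t w)).length = 0 then
      if 2^(ie m d σ.1) ≤ (σ.2.2.2.1.filter fun w => dw m b d σ.1 σ.2.1 σ.2.2.1 t w).length then
        (σ.1, σ.2.1 + 1, 0, List.range (2^(ii m d σ.1)), σ.2.2.2.2 + 2^(σ.2.1 + 1))
      else
        (σ.1, σ.2.1, σ.2.2.1 + 1,
          (σ.2.2.2.1.filter fun w => !(dw m b d σ.1 σ.2.1 σ.2.2.1 t w)), σ.2.2.2.2)
    else σ
  else
    if σ.2.2.2.2 < 2^(k0 m d - 2) then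
      (σ.1 + 1, 0, 0, List.range (2^(ii m d (σ.1 + 1))), σ.2.2.2.2 + 1)
    else σ

def st (d t : ℕ) : St :=
  Nat.rec (0, 0, 0, List.range (2^(ii m d 0)), 1) (fun t σ => step m a b q d t σ) t

lemma st_zero (d : ℕ) : st m a b q d 0 = (0, 0, 0, List.range (2^(ii m d 0)), 1) := rfl

lemma st_succ (d t : ℕ) : st m a b q d (t+1) = step m a b q d t (st m a b q d t) := rfl

lemma step_cases (d t : ℕ) (σ : St) :
    (step m a b q d t σ = σ) ∨
    (σ.2.2.1 < nR m d ∧ (∀ w ∈ σ.2.2.2.1, okw m a b q d σ.1 σ.2.1 σ.2.2.1 t w = true) ∧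
      2^(ie m d σ.1) ≤ (σ.2.2.2.1.filter fun w => dw m b d σ.1 σ.2.1 σ.2.2.1 t w).length ∧
      step m a b q d t σ =
        (σ.1, σ.2.1 + 1, 0, List.range (2^(ii m d σ.1)), σ.2.2.2.2 + 2^(σ.2.1 + 1))) ∨
    (σ.2.2.1 < nR m d ∧ (∀ w ∈ σ.2.2.2.1, okw m a b q d σ.1 σ.2.1 σ.2.2.1 t w = true) ∧
      (σ.2.2.2.1.filter fun w => dw m b d σ.1 σ.2.1 σ.2.2.1 t w).length < 2^(ie m d σ.1) ∧
      step m a b q d t σ = (σ.1, σ.2.1, σ.2.2.1 + 1,
          (σ.2.2.2.1.filter fun w => !(dw m b d σ.1 σ.2.1 σ.2.2.1 t w)), σ.2.2.2.2)) ∨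
    (nR m d ≤ σ.2.2.1 ∧ σ.2.2.2.2 < 2^(k0 m d - 2) ∧
      step m a b q d t σ =
        (σ.1 + 1, 0, 0, List.range (2^(ii m d (σ.1 + 1))), σ.2.2.2.2 + 1)) := by
  unfold step
  by_cases h1 : σ.2.2.1 < nR m d
  · by_cases h2 : (σ.2.2.2.1.filter fun w =>
        !(okw m a b q d σ.1 σ.2.1 σ.2.2.1 t w)).length = 0
    · have h2' : ∀ w ∈ σ.2.2.2.1, okw m a b q d σ.1 σ.2.1 σ.2.2.1 t w = true := by
        intro w hw
        by_contra hc
        have : w ∈ σ.2.2.2.1.filter fun w => !(okw m a b q d σ.1 σ.2.1 σ.2.2.1 t w) := by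
          rw [List.mem_filter]
          exact ⟨hw, by simpa using hc⟩
        rw [List.length_eq_zero_iff] at h2
        rw [h2] at this
        exact absurd this List.not_mem_nil
      by_cases h3 : 2^(ie m d σ.1) ≤
          (σ.2.2.2.1.filter fun w => dw m b d σ.1 σ.2.1 σ.2.2.1 t w).length
      · right; left
        rw [if_pos h1, if_pos h2, if_pos h3]
        exact ⟨h1, h2', h3, rfl⟩
      · right; right; left
        rw [if_pos h1, if_pos h2, if_neg h3]
        exact ⟨h1, h2', by omega, rfl⟩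
    · left
      rw [if_pos h1, if_neg h2]
  · by_cases h2 : σ.2.2.2.2 < 2^(k0 m d - 2)
    · right; right; right
      rw [if_neg h1, if_pos h2]
      exact ⟨by omega, h2, rfl⟩
    · left
      rw [if_neg h1, if_neg h2]

/-- if everybody is ready then the state changes -/
lemma step_ready (d t : ℕ) (σ : St) (h1 : σ.2.2.1 < nR m d)
    (h2 : ∀ w ∈ σ.2.2.2.1, okw m a b q d σ.1 σ.2.1 σ.2.2.1 t w = true) :
    step m a b q d t σ =
        (σ.1, σ.2.1 + 1, 0, List.range (2^(ii m d σ.1)), σ.2.2.2.2 + 2^(σ.2.1 + 1)) ∨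
    step m a b q d t σ = (σ.1, σ.2.1, σ.2.2.1 + 1,
          (σ.2.2.2.1.filter fun w => !(dw m b d σ.1 σ.2.1 σ.2.2.1 t w)), σ.2.2.2.2) := by
  have h3 : (σ.2.2.2.1.filter fun w => !(okw m a b q d σ.1 σ.2.1 σ.2.2.1 t w)).length = 0 := by
    rw [List.length_eq_zero_iff, List.filter_eq_nil_iff]
    intro w hw
    simp [h2 w hw]
  unfold step
  rw [if_pos h1, if_pos h3]
  by_cases h4 : 2^(ie m d σ.1) ≤
          (σ.2.2.2.1.filter fun w => dw m b d σ.1 σ.2.1 σ.2.2.1 t w).length
  · left; rw [if_pos h4]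
  · right; rw [if_neg h4]

/-! ### order of the positions -/

/-- lexicographic order of positions -/
def ple (σ τ : St) : Prop :=
  σ.1 < τ.1 ∨ (σ.1 = τ.1 ∧ (σ.2.1 < τ.2.1 ∨ (σ.2.1 = τ.2.1 ∧ σ.2.2.1 ≤ τ.2.2.1)))

lemma ple_refl (σ : St) : ple σ σ := Or.inr ⟨rfl, Or.inr ⟨rfl, le_rfl⟩⟩

lemma ple_trans {σ τ ρ : St} (h1 : ple σ τ) (h2 : ple τ ρ) : ple σ ρ := by
  unfold ple at *
  omega

lemma ple_step (d t : ℕ) (σ : St) : ple σ (step m a b q d t σ) := by
  rcases step_cases m a b q d t σ with h | ⟨-, -, -, h⟩ | ⟨-, -, -, h⟩ | ⟨-, -, h⟩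
  · rw [h]; exact ple_refl σ
  · rw [h]; right; exact ⟨rfl, Or.inl (Nat.lt_succ_self _)⟩
  · rw [h]; right; exact ⟨rfl, Or.inr ⟨rfl, Nat.le_succ _⟩⟩
  · rw [h]; left; exact Nat.lt_succ_self _

lemma ple_st (d : ℕ) {t t' : ℕ} (h : t ≤ t') : ple (st m a b q d t) (st m a b q d t') := by
  induction t', h using Nat.le_induction with
  | base => exact ple_refl _
  | succ t' _ ih => exact ple_trans ih (ple_step m a b q d t' _)

lemma j_le (d t : ℕ) : (st m a b q d t).2.2.1 ≤ nR m d := by
  induction t with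
  | zero => exact Nat.zero_le _
  | succ t ih =>
    rw [st_succ]
    rcases step_cases m a b q d t (st m a b q d t) with h | ⟨-, -, -, h⟩ | ⟨h1, -, -, h⟩ | ⟨-, -, h⟩
    · rw [h]; exact ih
    · rw [h]; exact Nat.zero_le _
    · rw [h]; exact h1
    · rw [h]; exact Nat.zero_le _

/-! ### the live elements -/

lemma live_inv (d t : ℕ) : (st m a b q d t).2.2.2.1.Nodup ∧
    (∀ w ∈ (st m a b q d t).2.2.2.1, w < 2^(ii m d (st m a b q d t).1)) ∧
    2^(ii m d (st m a b q d t).1) ≤ (st m a b q d t).2.2.2.1.length +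
      (st m a b q d t).2.2.1 * 2^(ie m d (st m a b q d t).1) := by
  induction t with
  | zero =>
    rw [st_zero]
    refine ⟨List.nodup_range, ?_, ?_⟩
    · intro w hw; exact List.mem_range.1 hw
    · simp
  | succ t ih =>
    rw [st_succ]
    set σ := st m a b q d t with hσ
    obtain ⟨ih1, ih2, ih3⟩ := ih
    rcases step_cases m a b q d t σ with h | ⟨-, -, -, h⟩ | ⟨h1, -, h2, h⟩ | ⟨-, -, h⟩
    · rw [h]; exact ⟨ih1, ih2, ih3⟩
    · rw [h]
      refine ⟨List.nodup_range, ?_, ?_⟩
      · intro w hw; exact List.mem_range.1 hw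
      · simp
    · rw [h]
      refine ⟨ih1.filter _, ?_, ?_⟩
      · intro w hw; exact ih2 w (List.mem_filter.1 hw).1
      · simp only
        have h3 : σ.2.2.2.1.length = (σ.2.2.2.1.filter fun w => dw m b d σ.1 σ.2.1 σ.2.2.1 t w).length
            + (σ.2.2.2.1.filter fun w => !(dw m b d σ.1 σ.2.1 σ.2.2.1 t w)).length := by
          simpa using List.length_eq_length_filter_add (l := σ.2.2.2.1)
            (fun w => dw m b d σ.1 σ.2.1 σ.2.2.1 t w)
        have h4 : (σ.2.2.1 + 1) * 2^(ie m d σ.1) = σ.2.2.1 * 2^(ie m d σ.1) + 2^(ie m d σ.1) := by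
          ring
        omega
    · rw [h]
      refine ⟨List.nodup_range, ?_, ?_⟩
      · intro w hw; exact List.mem_range.1 hw
      · simp

/-! ### weights -/

lemma W_inv (d t : ℕ) : (st m a b q d t).2.2.2.2 + 2 ≤ 2^(k0 m d - 2) + 2^((st m a b q d t).2.1 + 1) ∧
    (st m a b q d t).1 + 1 ≤ (st m a b q d t).2.2.2.2 := by
  induction t with
  | zero =>
    rw [st_zero]
    constructor
    · have : 0 < 2^(k0 m d - 2) := by positivity
      simp only
      omega
    · simp
  | succ t ih =>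
    rw [st_succ]
    set σ := st m a b q d t with hσ
    obtain ⟨ih1, ih2⟩ := ih
    rcases step_cases m a b q d t σ with h | ⟨-, -, -, h⟩ | ⟨h1, -, h2, h⟩ | ⟨-, h1, h⟩
    · rw [h]; exact ⟨ih1, ih2⟩
    · rw [h]
      simp only
      have h3 : 2^(σ.2.1 + 1 + 1) = 2^(σ.2.1+1) + 2^(σ.2.1+1) := by
        rw [pow_succ (n := σ.2.1+1)]; omega
      have h4 : 0 < 2^(σ.2.1 + 1) := by positivity
      generalize 2^(σ.2.1 + 1) = z at *
      omega
    · rw [h]; exact ⟨ih1, ih2⟩
    · rw [h]
      simp only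
      omega

/-- the pairs (subgame, stage) met up to time `T` -/
def vis (d T : ℕ) : Finset (ℕ × ℕ) :=
  (Finset.range (T+1)).image fun t => ((st m a b q d t).1, (st m a b q d t).2.1)

lemma vis_sum (d T : ℕ) : ∑ p ∈ vis m a b q d T, 2^p.2 ≤ (st m a b q d T).2.2.2.2 := by
  induction T with
  | zero => simp [vis, st_zero]
  | succ T ih =>
    have h1 : vis m a b q d (T+1) =
        insert ((st m a b q d (T+1)).1, (st m a b q d (T+1)).2.1) (vis m a b q d T) := by
      unfold vis
      rw [Finset.range_add_one (n := T+1), Finset.image_insert]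
    have hmem : ((st m a b q d T).1, (st m a b q d T).2.1) ∈ vis m a b q d T :=
      Finset.mem_image.2 ⟨T, Finset.mem_range.2 (Nat.lt_succ_self _), rfl⟩
    have hins : ∑ p ∈ vis m a b q d (T+1), 2^p.2 ≤
        2^(st m a b q d (T+1)).2.1 + ∑ p ∈ vis m a b q d T, 2^p.2 := by
      rw [h1]
      by_cases hm : ((st m a b q d (T+1)).1, (st m a b q d (T+1)).2.1) ∈ vis m a b q d T
      · rw [Finset.insert_eq_of_mem hm]; exact Nat.le_add_left _ _
      · rw [Finset.sum_insert hm]
    rw [st_succ] at h1 hins ⊢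
    set σ := st m a b q d T with hσ
    rcases step_cases m a b q d T σ with h | ⟨-, -, -, h⟩ | ⟨-, -, -, h⟩ | ⟨-, -, h⟩
    · rw [h] at h1 hins ⊢
      rw [h1, Finset.insert_eq_of_mem hmem]
      exact ih
    · rw [h] at h1 hins ⊢
      simp only at hins ⊢
      omega
    · rw [h] at h1 hins ⊢
      simp only at h1 hins ⊢
      rw [h1, Finset.insert_eq_of_mem hmem]
      exact ih
    · rw [h] at h1 hins ⊢
      simp only [pow_zero] at hins ⊢
      omega

end process

/-! ### counting, given the counting property of `C` -/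

section count
variable (m : ℕ) (a b q : ℕ → ℕ → ℕ) {C : ℕ → ℕ}
  (hCb : ∀ x t, C x ≤ b x t)
  (hCc : ∀ (k : ℕ) (U : Finset ℕ), (∀ x ∈ U, C x ≤ k) → U.card ≤ 2^(k+1))

/-- the number of elements of a block with small plain complexity -/
noncomputable def bad (C : ℕ → ℕ) (m d g s L : ℕ) : ℕ :=
  ((Finset.range (2^(ii m d g))).filter fun w => C (cd d g s w) ≤ L).card

lemma bad_mono {m d g s L L' : ℕ} (h : L ≤ L') : bad C m d g s L ≤ bad C m d g s L' := by
  unfold bad
  apply Finset.card_le_card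
  intro w hw
  rw [Finset.mem_filter] at hw ⊢
  exact ⟨hw.1, hw.2.trans h⟩

include hCc in
lemma block_count (d g L : ℕ) (R : Finset ℕ) (hR : ∀ s ∈ R, 2^(ie m d g) ≤ bad C m d g s L) :
    R.card * 2^(ie m d g) ≤ 2^(L+1) := by
  classical
  set F : ℕ → Finset ℕ := fun s =>
    ((Finset.range (2^(ii m d g))).filter fun w => C (cd d g s w) ≤ L).image (cd d g s) with hF
  have hcard : ∀ s, (F s).card = bad C m d g s L := by
    intro s
    rw [hF]
    simp only
    rw [Finset.card_image_of_injective _ (fun w w' h => (cd_inj h).2.2.2)]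
    rfl
  have hdis : ∀ s ∈ R, ∀ s' ∈ R, s ≠ s' → Disjoint (F s) (F s') := by
    intro s _ s' _ hss
    rw [Finset.disjoint_left]
    intro x hx hx'
    rw [hF] at hx hx'
    simp only [Finset.mem_image] at hx hx'
    obtain ⟨w, -, rfl⟩ := hx
    obtain ⟨w', -, h⟩ := hx'
    exact hss (cd_inj h).2.2.1.symm
  have h1 : (R.biUnion F).card = ∑ s ∈ R, bad C m d g s L := by
    rw [Finset.card_biUnion hdis]
    exact Finset.sum_congr rfl fun s _ => hcard s
  have h2 : (R.biUnion F).card ≤ 2^(L+1) := by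
    apply hCc
    intro x hx
    rw [Finset.mem_biUnion] at hx
    obtain ⟨s, -, hx⟩ := hx
    rw [hF] at hx
    simp only [Finset.mem_image, Finset.mem_filter] at hx
    obtain ⟨w, ⟨-, hw⟩, rfl⟩ := hx
    exact hw
  have h3 : R.card * 2^(ie m d g) ≤ ∑ s ∈ R, bad C m d g s L := by
    rw [← smul_eq_mul]
    exact Finset.card_nsmul_le_sum _ _ _ hR
  omega

include hCb in
/-- abandoned stages are bad -/
lemma stage_inv (d t : ℕ) : ∀ s' < (st m a b q d t).2.1, ∃ j' < nR m d,
    (∀ t' ≤ t, (st m a b q d t').1 = (st m a b q d t).1 → (st m a b q d t').2.1 = s' →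
      (st m a b q d t').2.2.1 ≤ j') ∧
    2^(ie m d (st m a b q d t).1) ≤ bad C m d (st m a b q d t).1 s'
      (vv m d (st m a b q d t).1 (j'+1)) := by
  induction t with
  | zero => intro s' hs'; rw [st_zero] at hs'; exact absurd hs' (Nat.not_lt_zero _)
  | succ t ih =>
    have hlift : (st m a b q d (t+1)).1 = (st m a b q d t).1 →
        ∀ s' < (st m a b q d (t+1)).2.1, ∀ j', (∀ t' ≤ t, (st m a b q d t').1 =
          (st m a b q d t).1 → (st m a b q d t').2.1 = s' → (st m a b q d t').2.2.1 ≤ j') →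
        (∀ t' ≤ t+1, (st m a b q d t').1 = (st m a b q d (t+1)).1 →
          (st m a b q d t').2.1 = s' → (st m a b q d t').2.2.1 ≤ j') := by
      intro hg s' hs' j' h t' ht' hg' hs''
      rcases Nat.lt_or_ge t' (t+1) with h1 | h1
      · exact h t' (by omega) (hg'.trans hg) hs''
      · have : t' = t+1 := le_antisymm ht' h1
        subst this
        omega
    have hprev : ∀ t' ≤ t, ple (st m a b q d t') (st m a b q d t) := fun t' h => ple_st m a b q d h
    rw [st_succ] at hlift ⊢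
    have hLI := live_inv m a b q d t
    set σ := st m a b q d t with hσ
    rcases step_cases m a b q d t σ with h | ⟨h1, -, h2, h⟩ | ⟨-, -, -, h⟩ | ⟨-, -, h⟩
    · rw [h] at hlift ⊢
      intro s' hs'
      obtain ⟨j', hj', h3, h4⟩ := ih s' hs'
      exact ⟨j', hj', hlift rfl s' hs' j' h3, h4⟩
    · rw [h] at hlift ⊢
      simp only at hlift ⊢
      intro s' hs'
      rcases Nat.lt_or_ge s' σ.2.1 with h5 | h5
      · obtain ⟨j', hj', h3, h4⟩ := ih s' h5
        exact ⟨j', hj', hlift trivial s' hs' j' h3, h4⟩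
      · have hs'' : s' = σ.2.1 := by omega
        refine ⟨σ.2.2.1, h1, hlift trivial s' hs' _ ?_, ?_⟩
        · intro t' ht' hg' hs3
          have := hprev t' ht'
          unfold ple at this
          omega
        · refine h2.trans ?_
          unfold bad
          rw [← List.toFinset_card_of_nodup (hLI.1.filter _)]
          apply Finset.card_le_card
          intro w hw
          rw [List.mem_toFinset, List.mem_filter] at hw
          rw [Finset.mem_filter, Finset.mem_range]
          refine ⟨hLI.2.1 w hw.1, ?_⟩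
          have h6 := hw.2
          unfold dw at h6
          rw [decide_eq_true_eq] at h6
          rw [hs'']
          exact (hCb _ _).trans h6
    · rw [h] at hlift ⊢
      simp only at hlift ⊢
      intro s' hs'
      obtain ⟨j', hj', h3, h4⟩ := ih s' hs'
      exact ⟨j', hj', hlift trivial s' hs' j' h3, h4⟩
    · rw [h]
      intro s' hs'
      exact absurd hs' (Nat.not_lt_zero _)

lemma cancel_block {m d g j c : ℕ} (hj : j < nR m d)
    (h : c * 2^(ie m d g) ≤ 2^(vv m d g (j+1) + 1)) :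
    c ≤ 2^(BB m d - j * JJ m d - 2*d - 3) := by
  have h1 := mul_JJ_le (m := m) (d := d) (j := j+1) hj
  have h2 : (j+1) * JJ m d = j * JJ m d + JJ m d := by ring
  have h3 : vv m d g (j+1) + 1 = (BB m d - j * JJ m d - 2*d - 3) + ie m d g := by
    unfold vv ii
    rw [h2] at h1 ⊢
    have : JJ m d = 2*d+4+ee m d := rfl
    omega
  rw [h3, pow_add] at h
  exact Nat.le_of_mul_le_mul_right h (by positivity)

include hCb hCc in
lemma s_lt (d t : ℕ) : (st m a b q d t).2.1 < 2^(BB m d) := by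
  have h1 : (Finset.range (st m a b q d t).2.1).card * 2^(ie m d (st m a b q d t).1) ≤
      2^(vv m d (st m a b q d t).1 (0+1) + 1) := by
    apply block_count m hCc
    intro s' hs'
    obtain ⟨j', -, -, h⟩ := stage_inv m a b q hCb d t s' (Finset.mem_range.1 hs')
    exact h.trans (bad_mono (vv_anti (by omega)))
  have h2 := cancel_block (nR_pos m d) h1
  rw [Finset.card_range] at h2
  refine h2.trans_lt ?_
  apply Nat.pow_lt_pow_right (by norm_num)
  have : 0 < BB m d := by unfold BB; omega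
  omega

include hCb hCc in
lemma W_lt (d t : ℕ) : (st m a b q d t).2.2.2.2 < 2^(k0 m d - 1) := by
  have h1 := (W_inv m a b q d t).1
  have h2 := s_lt m a b q hCb hCc d t
  have h3 : 2^((st m a b q d t).2.1 + 1) ≤ 2^(k0 m d - 2) := by
    apply Nat.pow_le_pow_right (by norm_num)
    unfold k0
    omega
  have h4 : 2^(k0 m d - 1) = 2^(k0 m d - 2) + 2^(k0 m d - 2) := by
    have : k0 m d - 1 = (k0 m d - 2) + 1 := by unfold k0; omega
    rw [this, pow_succ]; omega
  omega

/-- the stages of subgame `g` that reach round `j` (up to time `T`) -/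
def visS (d T g j : ℕ) : Finset ℕ :=
  ((Finset.range (T+1)).filter fun t => (st m a b q d t).1 = g ∧ (st m a b q d t).2.2.1 = j).image
    fun t => (st m a b q d t).2.1

lemma mem_visS {d T g j s : ℕ} : s ∈ visS m a b q d T g j ↔
    ∃ t ≤ T, (st m a b q d t).1 = g ∧ (st m a b q d t).2.2.1 = j ∧ (st m a b q d t).2.1 = s := by
  unfold visS
  simp only [Finset.mem_image, Finset.mem_filter, Finset.mem_range]
  constructor
  · rintro ⟨t, ⟨h1, h2, h3⟩, h4⟩
    exact ⟨t, by omega, h2, h3, h4⟩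
  · rintro ⟨t, h1, h2, h3, h4⟩
    exact ⟨t, ⟨by omega, h2, h3⟩, h4⟩

include hCb hCc in
lemma visS_card (d T g j : ℕ) (hj : j < nR m d) :
    (visS m a b q d T g j).card ≤ 1 + 2^(BB m d - j * JJ m d - 2*d - 3) := by
  classical
  rcases Finset.eq_empty_or_nonempty (visS m a b q d T g j) with h0 | h0
  · rw [h0]; simp
  · set R := visS m a b q d T g j with hR
    set s₀ := R.max' h0 with hs₀
    have hs₀m : s₀ ∈ R := Finset.max'_mem R h0
    obtain ⟨t₀, ht₀, hg₀, hj₀, hs₀'⟩ := (mem_visS m a b q).1 (hR ▸ hs₀m)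
    have key : (R.erase s₀).card * 2^(ie m d g) ≤ 2^(vv m d g (j+1) + 1) := by
      apply block_count m hCc
      intro s hs
      rw [Finset.mem_erase] at hs
      have hlt : s < s₀ := lt_of_le_of_ne (Finset.le_max' R s hs.2) hs.1
      obtain ⟨t, ht, hgt, hjt, hst⟩ := (mem_visS m a b q).1 (hR ▸ hs.2)
      have htt : t ≤ t₀ := by
        by_contra hc
        have := ple_st m a b q d (show t₀ ≤ t by omega)
        unfold ple at this
        omega
      obtain ⟨j', hj', h1, h2⟩ := stage_inv m a b q hCb d t₀ s (by omega)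
      rw [hg₀] at h1 h2
      have h3 := h1 t htt hgt hst
      exact h2.trans (bad_mono (vv_anti (by omega)))
    have h4 := cancel_block hj key
    rw [Finset.card_erase_of_mem hs₀m] at h4
    omega

end count

end Pool.Agent.TH676.CK
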