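import Mathlib
import Pool.Agent.TH676.CK.Game
import Pool.Agent.Helper981.KP.Comp

/-!
The process is computable, uniformly in `d`.
-/

set_option autoImplicit false
open Finset

namespace Pool.Agent.TH676.CK

open Pool.Agent.Helper981.KP (primrec_pow)

section basics
variable {α : Type*} [Primcodable α]

lemma c_add {f g : α → ℕ} (hf : Computable f) (hg : Computable g) :
    Computable fun x => f x + g x := (Primrec.nat_add.to_comp).comp hf hg

lemma c_mul {f g : α → ℕ} (hf : Computable f) (hg : Computable g) :
    Computable fun x => f x * g x := (Primrec.nat_mul.to_comp).comp hf hg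

lemma c_sub {f g : α → ℕ} (hf : Computable f) (hg : Computable g) :
    Computable fun x => f x - g x := (Primrec.nat_sub.to_comp).comp hf hg

lemma c_pow2 {f : α → ℕ} (hf : Computable f) :
    Computable fun x => 2 ^ f x := (primrec_pow.to_comp).comp (Computable.const 2) hf

lemma c_pair {f g : α → ℕ} (hf : Computable f) (hg : Computable g) :
    Computable fun x => Nat.pair (f x) (g x) := (Primrec₂.natPair.to_comp).comp hf hg

lemma c_le {f g : α → ℕ} (hf : Computable f) (hg : Computable g) :
    Computable fun x => decide (f x ≤ g x) := (Primrec.nat_le.decide.to_comp).comp hf hg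

lemma c_lt {f g : α → ℕ} (hf : Computable f) (hg : Computable g) :
    Computable fun x => decide (f x < g x) := (Primrec.nat_lt.decide.to_comp).comp hf hg

lemma c_eq {f g : α → ℕ} (hf : Computable f) (hg : Computable g) :
    Computable fun x => decide (f x = g x) := (Primrec.eq.decide.to_comp).comp hf hg

lemma c_and {f g : α → Bool} (hf : Computable f) (hg : Computable g) :
    Computable fun x => (f x && g x) := (Primrec.and.to_comp).comp hf hg

lemma c_not {f : α → Bool} (hf : Computable f) : Computable fun x => !(f x) :=
  (Primrec.not.to_comp).comp hf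

lemma c_ite {σ : Type*} [Primcodable σ] {p : α → Prop} [DecidablePred p] {f g : α → σ}
    (hp : Computable fun x => decide (p x)) (hf : Computable f) (hg : Computable g) :
    Computable fun x => if p x then f x else g x := by
  refine (Computable.cond hp hf hg).of_eq fun x => ?_
  by_cases h : p x
  · simp [h]
  · simp [h]

lemma c_filter {l : α → List ℕ} {p : α → ℕ → Bool} (hl : Computable l)
    (hp : Computable fun x : α × ℕ => p x.1 x.2) : Computable fun x => (l x).filter (p x) := by
  have hget : Computable fun x : α × (ℕ × List ℕ) => (l x.1).getD x.2.1 0 :=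
    (Primrec.list_getD (0:ℕ)).to_comp.comp (hl.comp Computable.fst)
      (Computable.fst.comp Computable.snd)
  have h1 : Computable fun x => (Nat.rec (motive := fun _ => List ℕ) []
      (fun k acc => bif p x ((l x).getD k 0) then acc ++ [(l x).getD k 0] else acc)
        (l x).length : List ℕ) := by
    refine Computable.nat_rec (f := fun x => (l x).length) (g := fun _ => ([] : List ℕ))
      (h := fun x y => bif p x ((l x).getD y.1 0) then y.2 ++ [(l x).getD y.1 0] else y.2)
      (Primrec.list_length.to_comp.comp hl) (Computable.const _) ?_
    refine Computable.cond ?_ ?_ (Computable.snd.comp Computable.snd)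
    · exact hp.comp (Computable.pair Computable.fst hget)
    · exact (Primrec.list_concat.to_comp).comp (Computable.snd.comp Computable.snd) hget
  refine h1.of_eq fun x => ?_
  have key : ∀ n ≤ (l x).length, (Nat.rec (motive := fun _ => List ℕ) []
      (fun k acc => bif p x ((l x).getD k 0) then acc ++ [(l x).getD k 0] else acc) n : List ℕ) =
      ((l x).take n).filter (p x) := by
    intro n
    induction n with
    | zero => intro _; simp
    | succ n ih =>
      intro hn
      simp only
      rw [ih (by omega), List.take_add_one]
      have h2 : (l x)[n]? = some ((l x).getD n 0) := by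
        rw [List.getD_eq_getElem?_getD, List.getElem?_eq_getElem (by omega)]
        simp
      rw [h2, List.filter_append]
      generalize (l x).getD n 0 = y
      by_cases h3 : p x y = true
      · simp [h3]
      · simp [h3]
  rw [key _ le_rfl, List.take_length]

end basics

section params
variable {α : Type*} [Primcodable α] (m : ℕ)

lemma c_nR {d : α → ℕ} (hd : Computable d) : Computable fun x => nR m (d x) := by
  unfold nR rr
  exact c_add (c_mul (Computable.const _) (c_add (c_mul (Computable.const _) hd)
    (Computable.const _))) (Computable.const _)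

lemma c_ee {d : α → ℕ} (hd : Computable d) : Computable fun x => ee m (d x) := by
  unfold ee
  exact c_add (c_nR m hd) (Computable.const _)

lemma c_JJ {d : α → ℕ} (hd : Computable d) : Computable fun x => JJ m (d x) := by
  unfold JJ
  exact c_add (c_add (c_mul (Computable.const _) hd) (Computable.const _)) (c_ee m hd)

lemma c_BB {d : α → ℕ} (hd : Computable d) : Computable fun x => BB m (d x) := by
  unfold BB
  exact c_add (c_add (c_mul (c_nR m hd) (c_JJ m hd)) (c_mul (Computable.const _) hd))
    (Computable.const _)

lemma c_k0 {d : α → ℕ} (hd : Computable d) : Computable fun x => k0 m (d x) := by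
  unfold k0
  exact c_add (c_pow2 (c_BB m hd)) (Computable.const _)

lemma c_ie {d g : α → ℕ} (hd : Computable d) (hg : Computable g) :
    Computable fun x => ie m (d x) (g x) := by
  unfold ie
  exact c_mul (c_add hg (Computable.const _)) (c_mul (c_nR m hd) (c_JJ m hd))

lemma c_ii {d g : α → ℕ} (hd : Computable d) (hg : Computable g) :
    Computable fun x => ii m (d x) (g x) := by
  unfold ii
  exact c_add (c_ie m hd hg) (c_ee m hd)

lemma c_vv {d g j : α → ℕ} (hd : Computable d) (hg : Computable g) (hj : Computable j) :
    Computable fun x => vv m (d x) (g x) (j x) := by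
  unfold vv
  exact c_sub (c_add (c_ii m hd hg) (c_BB m hd)) (c_mul hj (c_JJ m hd))

lemma c_kx {d g s : α → ℕ} (hd : Computable d) (hg : Computable g) (hs : Computable s) :
    Computable fun x => kx m (d x) (g x) (s x) := by
  unfold kx
  exact c_add (c_add (c_add (c_ii m hd hg) (c_sub (c_k0 m hd) hs)) (c_mul (Computable.const _) hd))
    (Computable.const _)

lemma c_cd {d g s w : α → ℕ} (hd : Computable d) (hg : Computable g) (hs : Computable s)
    (hw : Computable w) : Computable fun x => cd (d x) (g x) (s x) (w x) := by
  unfold cd
  exact c_pair (c_pair hd hg) (c_pair hs hw)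

variable {a b q : ℕ → ℕ → ℕ} (ha : Computable₂ a) (hb : Computable₂ b) (hq : Computable₂ q)

include ha hb hq in
lemma c_okw {d g s j t w : α → ℕ} (hd : Computable d) (hg : Computable g) (hs : Computable s)
    (hj : Computable j) (ht : Computable t) (hw : Computable w) :
    Computable fun x => okw m a b q (d x) (g x) (s x) (j x) (t x) (w x) := by
  unfold okw
  have hc := c_cd hd hg hs hw
  have hac := ha.comp hc ht
  have hbc := hb.comp hc ht
  refine c_and (c_le hac (c_kx m hd hg hs)) (c_and (c_le hbc (c_vv m hd hg hj)) ?_)
  exact c_le (hq.comp (c_pair hbc (c_pair hc hac)) ht) (Computable.const _)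

include hb in
lemma c_dw {d g s j t w : α → ℕ} (hd : Computable d) (hg : Computable g) (hs : Computable s)
    (hj : Computable j) (ht : Computable t) (hw : Computable w) :
    Computable fun x => dw m b (d x) (g x) (s x) (j x) (t x) (w x) := by
  unfold dw
  exact c_le (hb.comp (c_cd hd hg hs hw) ht) (c_vv m hd hg (c_add hj (Computable.const _)))

include ha hb hq in
lemma c_step {d t : α → ℕ} {σ : α → St} (hd : Computable d) (ht : Computable t)
    (hσ : Computable σ) : Computable fun x => step m a b q (d x) (t x) (σ x) := by
  have f1 : Computable fun x => (σ x).1 := Computable.fst.comp hσ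
  have f2 : Computable fun x => (σ x).2.1 := Computable.fst.comp (Computable.snd.comp hσ)
  have f3 : Computable fun x => (σ x).2.2.1 :=
    Computable.fst.comp (Computable.snd.comp (Computable.snd.comp hσ))
  have f4 : Computable fun x => (σ x).2.2.2.1 :=
    Computable.fst.comp (Computable.snd.comp (Computable.snd.comp (Computable.snd.comp hσ)))
  have f5 : Computable fun x => (σ x).2.2.2.2 :=
    Computable.snd.comp (Computable.snd.comp (Computable.snd.comp (Computable.snd.comp hσ)))
  have hlen : Computable fun l : List ℕ => l.length := Primrec.list_length.to_comp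
  have hrange : Computable fun n : ℕ => List.range n := Primrec.list_range.to_comp
  have hF1 : Computable fun x => ((σ x).2.2.2.1.filter fun w =>
      !(okw m a b q (d x) (σ x).1 (σ x).2.1 (σ x).2.2.1 (t x) w)) :=
    c_filter f4 (c_not (c_okw m ha hb hq (hd.comp Computable.fst) (f1.comp Computable.fst)
      (f2.comp Computable.fst) (f3.comp Computable.fst) (ht.comp Computable.fst) Computable.snd))
  have hF2 : Computable fun x => ((σ x).2.2.2.1.filter fun w =>
      dw m b (d x) (σ x).1 (σ x).2.1 (σ x).2.2.1 (t x) w) :=
    c_filter f4 (c_dw m hb (hd.comp Computable.fst) (f1.comp Computable.fst)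
      (f2.comp Computable.fst) (f3.comp Computable.fst) (ht.comp Computable.fst) Computable.snd)
  have hF3 : Computable fun x => ((σ x).2.2.2.1.filter fun w =>
      !(dw m b (d x) (σ x).1 (σ x).2.1 (σ x).2.2.1 (t x) w)) :=
    c_filter f4 (c_not (c_dw m hb (hd.comp Computable.fst) (f1.comp Computable.fst)
      (f2.comp Computable.fst) (f3.comp Computable.fst) (ht.comp Computable.fst) Computable.snd))
  unfold step
  refine c_ite (c_lt f3 (c_nR m hd)) ?_ ?_
  · refine c_ite (c_eq (hlen.comp hF1) (Computable.const 0)) ?_ hσ
    refine c_ite (c_le (c_pow2 (c_ie m hd f1)) (hlen.comp hF2)) ?_ ?_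
    · exact Computable.pair f1 (Computable.pair (Computable.succ.comp f2)
        (Computable.pair (Computable.const 0) (Computable.pair (hrange.comp (c_pow2 (c_ii m hd f1)))
          (c_add f5 (c_pow2 (Computable.succ.comp f2))))))
    · exact Computable.pair f1 (Computable.pair f2 (Computable.pair (Computable.succ.comp f3)
        (Computable.pair hF3 f5)))
  · refine c_ite (c_lt f5 (c_pow2 (c_sub (c_k0 m hd) (Computable.const 2)))) ?_ hσ
    exact Computable.pair (Computable.succ.comp f1) (Computable.pair (Computable.const 0)
      (Computable.pair (Computable.const 0)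
        (Computable.pair (hrange.comp (c_pow2 (c_ii m hd (Computable.succ.comp f1))))
          (Computable.succ.comp f5))))

include ha hb hq in
lemma c_st {d t : α → ℕ} (hd : Computable d) (ht : Computable t) :
    Computable fun x => st m a b q (d x) (t x) := by
  unfold st
  refine Computable.nat_rec (f := t)
    (g := fun x => ((0, 0, 0, List.range (2^(ii m (d x) 0)), 1) : St))
    (h := fun x y => step m a b q (d x) y.1 y.2) ht ?_ ?_
  · exact Computable.pair (Computable.const 0) (Computable.pair (Computable.const 0)
      (Computable.pair (Computable.const 0)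
        (Computable.pair ((Primrec.list_range.to_comp).comp
          (c_pow2 (c_ii m hd (Computable.const 0)))) (Computable.const 1))))
  · exact c_step m ha hb hq (hd.comp Computable.fst) (Computable.fst.comp Computable.snd)
      (Computable.snd.comp Computable.snd)

end params

end Pool.Agent.TH676.CK
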