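import Mathlib
import Pool.Agent.TH676.CK.Game

/-!
If `C x` always stays among the few values described by `Q` given `x` and `K x`, then the game
cannot be played for ever: the surviving elements get too much weight.
-/

set_option autoImplicit false
open Finset

namespace Pool.Agent.TH676.CK

section win
variable (m : ℕ) (a b q : ℕ → ℕ → ℕ) {K C Q : ℕ → ℕ}
  (hKa : ∀ x t, K x ≤ a x t) (hCb : ∀ x t, C x ≤ b x t) (hQq : ∀ z t, Q z ≤ q z t)
  (hCc : ∀ (k : ℕ) (U : Finset ℕ), (∀ x ∈ U, C x ≤ k) → U.card ≤ 2^(k+1))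
  (hQc : ∀ (y : ℕ) (U : Finset ℕ), (∀ v ∈ U, Q (Nat.pair v y) ≤ m) → U.card ≤ 2^(m+1))
  (hKr : ∀ U : Finset ℕ, ∑ x ∈ U, ((1:ℝ)/2)^(K x) ≤ 1)

include hKa hQq in
/-- every live element has gone through many pairs (prefix complexity, plain complexity) -/
lemma chain_inv (d t : ℕ) : ∀ w ∈ (st m a b q d t).2.2.2.1, ∃ P : Finset (ℕ × ℕ),
    P.card = (st m a b q d t).2.2.1 ∧ ∀ p ∈ P,
      vv m d (st m a b q d t).1 (st m a b q d t).2.2.1 < p.2 ∧
      Q (Nat.pair p.2 (Nat.pair (cd d (st m a b q d t).1 (st m a b q d t).2.1 w) p.1)) ≤ m ∧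
      K (cd d (st m a b q d t).1 (st m a b q d t).2.1 w) ≤ p.1 ∧
      p.1 ≤ kx m d (st m a b q d t).1 (st m a b q d t).2.1 := by
  classical
  induction t with
  | zero => intro w _; exact ⟨∅, rfl, by simp⟩
  | succ t ih =>
    rw [st_succ]
    set σ := st m a b q d t with hσ
    rcases step_cases m a b q d t σ with h | ⟨-, -, -, h⟩ | ⟨h1, h2, -, h⟩ | ⟨-, -, h⟩
    · rw [h]; exact ih
    · rw [h]; intro w _; exact ⟨∅, rfl, by simp⟩
    · rw [h]
      simp only
      intro w hw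
      rw [List.mem_filter] at hw
      obtain ⟨P, hP, hP'⟩ := ih w hw.1
      have hok := h2 w hw.1
      have hd := hw.2
      unfold dw at hd
      unfold okw at hok
      simp only [Bool.and_eq_true, decide_eq_true_eq, Bool.not_eq_true',
        decide_eq_false_iff_not, not_le] at hok hd
      obtain ⟨hok1, hok2, hok3⟩ := hok
      set x := cd d σ.1 σ.2.1 w with hx
      have hnot : (a x t, b x t) ∉ P := by
        intro hm
        have := (hP' _ hm).1
        simp only at this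
        omega
      refine ⟨insert (a x t, b x t) P, ?_, ?_⟩
      · rw [Finset.card_insert_of_notMem hnot, hP]
      · intro p hp
        rw [Finset.mem_insert] at hp
        rcases hp with rfl | hp
        · exact ⟨hd, (hQq _ _).trans hok3, hKa _ _, hok1⟩
        · obtain ⟨h3, h4⟩ := hP' p hp
          exact ⟨(vv_succ_lt h1).trans h3, h4⟩
    · rw [h]; intro w _; exact ⟨∅, rfl, by simp⟩

include hKa hQq hQc in
/-- the prefix complexity of the survivors has fallen a lot -/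
lemma surv_gain (d t : ℕ) (hj : nR m d ≤ (st m a b q d t).2.2.1) :
    ∀ w ∈ (st m a b q d t).2.2.2.1, K (cd d (st m a b q d t).1 (st m a b q d t).2.1 w) + rr d ≤
      kx m d (st m a b q d t).1 (st m a b q d t).2.1 := by
  classical
  intro w hw
  obtain ⟨P, hP, hP'⟩ := chain_inv m a b q hKa hQq d t w hw
  set σ := st m a b q d t with hσ
  set x := cd d σ.1 σ.2.1 w with hx
  have h1 : P.card ≤ 2^(m+1) * (P.image Prod.fst).card := by
    apply Finset.card_le_mul_card_image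
    intro k _
    have h2 : (P.filter fun p => p.1 = k).card = ((P.filter fun p => p.1 = k).image Prod.snd).card := by
      rw [Finset.card_image_of_injOn]
      intro p hp p' hp' h
      simp only [Finset.coe_filter, Set.mem_ofPred_eq] at hp hp'
      exact Prod.ext (hp.2.trans hp'.2.symm) h
    rw [h2]
    apply hQc (Nat.pair x k)
    intro v hv
    rw [Finset.mem_image] at hv
    obtain ⟨p, hp, rfl⟩ := hv
    rw [Finset.mem_filter] at hp
    have := (hP' p hp.1).2.1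
    rw [hp.2] at this
    exact this
  have h3 : (P.image Prod.fst).card ≤ kx m d σ.1 σ.2.1 + 1 - K x := by
    rw [← Nat.card_Icc]
    apply Finset.card_le_card
    intro k hk
    rw [Finset.mem_image] at hk
    obtain ⟨p, hp, rfl⟩ := hk
    rw [Finset.mem_Icc]
    exact (hP' p hp).2.2
  have h4 : 2^(m+1) * rr d < 2^(m+1) * (P.image Prod.fst).card := by
    have : nR m d = 2^(m+1) * rr d + 1 := rfl
    omega
  have h5 := Nat.lt_of_mul_lt_mul_left h4
  omega

lemma half_pow_sub {k s : ℕ} (h : s ≤ k) : ((1:ℝ)/2)^(k-s) = 2^s * (1/2)^k := by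
  have h1 : ((1:ℝ)/2)^k = (1/2)^(k-s) * (1/2)^s := by rw [← pow_add, Nat.sub_add_cancel h]
  rw [h1]
  have h2 : (2:ℝ)^s * (1/2)^s = 1 := by rw [← mul_pow]; norm_num
  calc ((1:ℝ)/2)^(k-s) = (1/2)^(k-s) * (2^s * (1/2)^s) := by rw [h2, mul_one]
    _ = _ := by ring

include hKa hCb hQq hCc hQc in
/-- the weight of the survivors at the end of a subgame -/
lemma surv_weight (d t : ℕ) (hj : nR m d ≤ (st m a b q d t).2.2.1) :
    (2:ℝ)^((st m a b q d t).2.1 + 1) * (8 * (1/2)^(k0 m d)) ≤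
      ∑ y ∈ (st m a b q d t).2.2.2.1.toFinset.image
        (cd d (st m a b q d t).1 (st m a b q d t).2.1), ((1:ℝ)/2)^(K y) := by
  have hg := surv_gain m a b q hKa hQq hQc d t hj
  have hL := live_inv m a b q d t
  have hs := s_lt m a b q hCb hCc d t
  have hjj := j_le m a b q d t
  set σ := st m a b q d t with hσ
  rw [Finset.sum_image (fun w _ w' _ h => (cd_inj h).2.2.2)]
  have h1 : ∀ w ∈ σ.2.2.2.1.toFinset, (2:ℝ)^(rr d) * (1/2)^(kx m d σ.1 σ.2.1) ≤
      ((1:ℝ)/2)^(K (cd d σ.1 σ.2.1 w)) := by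
    intro w hw
    rw [List.mem_toFinset] at hw
    have h2 := hg w hw
    have h3 : ((1:ℝ)/2)^(kx m d σ.1 σ.2.1) ≤ (1/2)^(K (cd d σ.1 σ.2.1 w) + rr d) :=
      pow_le_pow_of_le_one (by norm_num) (by norm_num) h2
    have h4 : (2:ℝ)^(rr d) * (1/2)^(rr d) = 1 := by rw [← mul_pow]; norm_num
    calc (2:ℝ)^(rr d) * (1/2)^(kx m d σ.1 σ.2.1)
        ≤ 2^(rr d) * (1/2)^(K (cd d σ.1 σ.2.1 w) + rr d) :=
          mul_le_mul_of_nonneg_left h3 (by positivity)
      _ = (2^(rr d) * (1/2)^(rr d)) * (1/2)^(K (cd d σ.1 σ.2.1 w)) := by rw [pow_add]; ring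
      _ = _ := by rw [h4, one_mul]
  have h2 := Finset.card_nsmul_le_sum _ _ _ h1
  rw [nsmul_eq_mul, List.toFinset_card_of_nodup hL.1] at h2
  refine le_trans ?_ h2
  have h5 : 2^(ii m d σ.1) ≤ 2 * σ.2.2.2.1.length := by
    have h6 := hL.2.2
    have h7 : σ.2.2.1 = nR m d := le_antisymm hjj hj
    rw [h7] at h6
    have h8 := Nat.mul_le_mul_right (2^(ie m d σ.1)) (two_mul_nR_le m d)
    have h9 : 2^(ii m d σ.1) = 2^(ee m d) * 2^(ie m d σ.1) := by
      rw [← pow_add]; congr 1; unfold ii; omega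
    have h10 : 2 * nR m d * 2^(ie m d σ.1) = 2 * (nR m d * 2^(ie m d σ.1)) := by ring
    omega
  have h5' : (2:ℝ)^(ii m d σ.1) ≤ 2 * (σ.2.2.2.1.length : ℝ) := by exact_mod_cast h5
  have hsk : σ.2.1 ≤ k0 m d := by unfold k0; omega
  have h11 : ((1:ℝ)/2)^(kx m d σ.1 σ.2.1) = (1/2)^(ii m d σ.1) * (2^σ.2.1 * (1/2)^(k0 m d)) *
      (1/2)^(2*d+1) := by
    rw [← half_pow_sub hsk, ← pow_add, ← pow_add]
    congr 1
  have h12 : (2:ℝ)^(ii m d σ.1) * (1/2)^(ii m d σ.1) = 1 := by rw [← mul_pow]; norm_num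
  have h13 : (2:ℝ)^(rr d) * (1/2)^(2*d+1) = 32 := by
    have : rr d = 5 + (2*d+1) := by unfold rr; omega
    rw [this, pow_add, mul_assoc, ← mul_pow]
    norm_num
  have h14 : (0:ℝ) ≤ 2^(rr d) * (1/2)^(kx m d σ.1 σ.2.1) := by positivity
  have h15 : (2:ℝ)^(ii m d σ.1) * (2^(rr d) * (1/2)^(kx m d σ.1 σ.2.1)) ≤
      2 * (σ.2.2.2.1.length : ℝ) * (2^(rr d) * (1/2)^(kx m d σ.1 σ.2.1)) :=
    mul_le_mul_of_nonneg_right h5' h14
  have h16 : (2:ℝ)^(ii m d σ.1) * (2^(rr d) * (1/2)^(kx m d σ.1 σ.2.1)) =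
      32 * (2^σ.2.1 * (1/2)^(k0 m d)) := by
    rw [h11]
    calc (2:ℝ)^(ii m d σ.1) * (2^(rr d) * ((1/2)^(ii m d σ.1) * (2^σ.2.1 * (1/2)^(k0 m d)) *
          (1/2)^(2*d+1))) = (2^(ii m d σ.1) * (1/2)^(ii m d σ.1)) * (2^(rr d) * (1/2)^(2*d+1)) *
          (2^σ.2.1 * (1/2)^(k0 m d)) := by ring
      _ = _ := by rw [h12, h13, one_mul]
  have h17 : (2:ℝ)^(σ.2.1+1) * (8 * (1/2)^(k0 m d)) = 16 * (2^σ.2.1 * (1/2)^(k0 m d)) := by
    rw [pow_succ]; ring
  rw [h17]
  linarith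

include hKa hCb hQq hCc hQc in
/-- the account: all stages are paid for by survivors of the finished subgames, except the
stages of the present subgame -/
lemma account (d t : ℕ) : ∃ Y : Finset ℕ,
    (∀ y ∈ Y, y.unpair.1.unpair.2 < (st m a b q d t).1) ∧
    (((st m a b q d t).2.2.2.2 : ℝ) - (2^((st m a b q d t).2.1 + 1) - 1)) * (8 * (1/2)^(k0 m d)) ≤
      ∑ y ∈ Y, ((1:ℝ)/2)^(K y) := by
  classical
  induction t with
  | zero =>
    refine ⟨∅, by simp, ?_⟩
    rw [st_zero]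
    simp only [Finset.sum_empty]
    norm_num
  | succ t ih =>
    have hsw := surv_weight m a b q hKa hCb hQq hCc hQc d t
    rw [st_succ]
    set σ := st m a b q d t with hσ
    obtain ⟨Y, hY1, hY2⟩ := ih
    rcases step_cases m a b q d t σ with h | ⟨-, -, -, h⟩ | ⟨-, -, -, h⟩ | ⟨h1, -, h⟩
    · rw [h]; exact ⟨Y, hY1, hY2⟩
    · rw [h]
      refine ⟨Y, hY1, ?_⟩
      simp only
      have e : (((σ.2.2.2.2 + 2^(σ.2.1+1) : ℕ)) : ℝ) - (2^(σ.2.1+1+1) - 1) =
          (σ.2.2.2.2 : ℝ) - (2^(σ.2.1+1) - 1) := by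
        push_cast
        rw [pow_succ (n := σ.2.1+1)]
        ring
      rw [e]
      exact hY2
    · rw [h]; exact ⟨Y, hY1, hY2⟩
    · rw [h]
      simp only
      refine ⟨Y ∪ σ.2.2.2.1.toFinset.image (cd d σ.1 σ.2.1), ?_, ?_⟩
      · intro y hy
        rw [Finset.mem_union] at hy
        rcases hy with hy | hy
        · exact (hY1 y hy).trans (Nat.lt_succ_self _)
        · rw [Finset.mem_image] at hy
          obtain ⟨w, -, rfl⟩ := hy
          simp [cd]
      · have hdis : Disjoint Y (σ.2.2.2.1.toFinset.image (cd d σ.1 σ.2.1)) := by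
          rw [Finset.disjoint_left]
          intro y hy hy'
          rw [Finset.mem_image] at hy'
          obtain ⟨w, -, rfl⟩ := hy'
          have := hY1 _ hy
          simp [cd] at this
        rw [Finset.sum_union hdis]
        have h2 := hsw h1
        have e : (((σ.2.2.2.2 + 1 : ℕ)) : ℝ) - (2^(0+1) - 1) = (σ.2.2.2.2 : ℝ) := by
          push_cast; norm_num
        rw [e]
        have h3 : (0:ℝ) ≤ 8 * (1/2)^(k0 m d) := by positivity
        nlinarith

include hKa hCb hQq hCc hQc hKr in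
/-- the process never halts -/
lemma not_halt (d t : ℕ) : ¬ (nR m d ≤ (st m a b q d t).2.2.1 ∧
    2^(k0 m d - 2) ≤ (st m a b q d t).2.2.2.2) := by
  classical
  rintro ⟨h1, h2⟩
  have hsw := surv_weight m a b q hKa hCb hQq hCc hQc d t h1
  obtain ⟨Y, hY1, hY2⟩ := account m a b q hKa hCb hQq hCc hQc d t
  set σ := st m a b q d t with hσ
  have hdis : Disjoint Y (σ.2.2.2.1.toFinset.image (cd d σ.1 σ.2.1)) := by
    rw [Finset.disjoint_left]
    intro y hy hy'
    rw [Finset.mem_image] at hy'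
    obtain ⟨w, -, rfl⟩ := hy'
    have := hY1 _ hy
    simp [cd] at this
  have h3 := hKr (Y ∪ σ.2.2.2.1.toFinset.image (cd d σ.1 σ.2.1))
  rw [Finset.sum_union hdis] at h3
  have h4 : (0:ℝ) ≤ 8 * (1/2)^(k0 m d) := by positivity
  have h5 : (σ.2.2.2.2 : ℝ) * (8 * (1/2)^(k0 m d)) ≤ 1 := by nlinarith
  have h6 : ((2:ℝ)^(k0 m d - 2)) ≤ (σ.2.2.2.2 : ℝ) := by exact_mod_cast h2
  have h7 : (2:ℝ)^(k0 m d - 2) * (8 * (1/2)^(k0 m d)) = 2 := by
    have h8 : k0 m d = (k0 m d - 2) + 2 := by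
      have h9 : 0 < 2^(BB m d) := by positivity
      unfold k0
      generalize 2^(BB m d) = z at *
      omega
    have h9 : ((1:ℝ)/2)^(k0 m d) = (1/2)^(k0 m d - 2) * (1/2)^2 := by
      rw [← pow_add, ← h8]
    rw [h9]
    have h10 : (2:ℝ)^(k0 m d - 2) * (1/2)^(k0 m d - 2) = 1 := by rw [← mul_pow]; norm_num
    calc (2:ℝ)^(k0 m d - 2) * (8 * ((1/2)^(k0 m d - 2) * (1/2)^2))
        = ((2:ℝ)^(k0 m d - 2) * (1/2)^(k0 m d - 2)) * (8 * (1/2)^2) := by ring
      _ = 2 := by rw [h10]; norm_num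
  have h8 := mul_le_mul_of_nonneg_right h6 h4
  linarith

/-! ### progress -/

/-- a numerical measure of the position -/
def Mz (m d : ℕ) (σ : St) : ℕ := (σ.1 * 2^(BB m d) + σ.2.1) * (nR m d + 1) + σ.2.2.1

section progress
variable (d : ℕ)
  (hev : ∀ t, (st m a b q d t).2.2.1 < nR m d → ∀ w < 2^(ii m d (st m a b q d t).1),
    ∃ t₀, ∀ t' ≥ t₀, okw m a b q d (st m a b q d t).1 (st m a b q d t).2.1
      (st m a b q d t).2.2.1 t' w = true)

include hev in
lemma wait_ends (t : ℕ) (hj : (st m a b q d t).2.2.1 < nR m d) :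
    ∃ t' ≥ t, st m a b q d t' = st m a b q d t ∧ ∀ w ∈ (st m a b q d t).2.2.2.1,
      okw m a b q d (st m a b q d t).1 (st m a b q d t).2.1 (st m a b q d t).2.2.1 t' w = true := by
  by_contra hc
  push Not at hc
  have h1 : ∀ t' ≥ t, st m a b q d t' = st m a b q d t := by
    intro t' ht'
    induction t', ht' using Nat.le_induction with
    | base => rfl
    | succ t' ht' ih =>
      obtain ⟨w, hw, hw'⟩ := hc t' ht' ih
      rw [st_succ, ih]
      rcases step_cases m a b q d t' (st m a b q d t) with h | ⟨-, h2, -, -⟩ | ⟨-, h2, -, -⟩ | ⟨h2, -, -⟩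
      · exact h
      · exact absurd (h2 w hw) hw'
      · exact absurd (h2 w hw) hw'
      · omega
  have h2 : ∀ w ∈ (st m a b q d t).2.2.2.1, ∃ t₀, ∀ t' ≥ t₀, okw m a b q d (st m a b q d t).1
      (st m a b q d t).2.1 (st m a b q d t).2.2.1 t' w = true :=
    fun w hw => hev t hj w ((live_inv m a b q d t).2.1 w hw)
  choose! τ hτ using h2
  obtain ⟨T, hT⟩ : ∃ T, ∀ w ∈ (st m a b q d t).2.2.2.1, τ w ≤ T := by
    refine ⟨(st m a b q d t).2.2.2.1.toFinset.sup τ, fun w hw => ?_⟩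
    exact Finset.le_sup (f := τ) (List.mem_toFinset.2 hw)
  obtain ⟨w, hw, hw'⟩ := hc (max t T) (le_max_left _ _) (h1 _ (le_max_left _ _))
  exact hw' (hτ w hw _ ((hT w hw).trans (le_max_right _ _)))

include hev hCb hCc in
lemma progress (hnh : ∀ t, ¬ (nR m d ≤ (st m a b q d t).2.2.1 ∧
    2^(k0 m d - 2) ≤ (st m a b q d t).2.2.2.2)) (t : ℕ) :
    ∃ t', Mz m d (st m a b q d t) < Mz m d (st m a b q d t') := by
  rcases Nat.lt_or_ge (st m a b q d t).2.2.1 (nR m d) with hj | hj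
  · obtain ⟨t', -, h1, h2⟩ := wait_ends m a b q d hev t hj
    refine ⟨t'+1, ?_⟩
    rw [st_succ, h1]
    set σ := st m a b q d t with hσ
    rcases step_ready m a b q d t' σ hj h2 with h | h
    · rw [h]
      unfold Mz
      simp only
      have : (σ.1 * 2^(BB m d) + (σ.2.1 + 1)) * (nR m d + 1) =
        (σ.1 * 2^(BB m d) + σ.2.1) * (nR m d + 1) + (nR m d + 1) := by ring
      omega
    · rw [h]
      unfold Mz
      simp only
      omega
  · refine ⟨t+1, ?_⟩
    have hs := s_lt m a b q hCb hCc d t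
    have hjj := j_le m a b q d t
    have hn := hnh t
    rw [st_succ]
    set σ := st m a b q d t with hσ
    have h1 : step m a b q d t σ =
        (σ.1 + 1, 0, 0, List.range (2^(ii m d (σ.1 + 1))), σ.2.2.2.2 + 1) := by
      unfold step
      rw [if_neg (by omega), if_pos (by by_contra hcc; exact hn ⟨hj, by omega⟩)]
    rw [h1]
    unfold Mz
    simp only
    have h2 : (σ.1 * 2^(BB m d) + σ.2.1 + 1) * (nR m d + 1) ≤
        ((σ.1 + 1) * 2^(BB m d) + 0) * (nR m d + 1) := by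
      apply Nat.mul_le_mul_right
      have : (σ.1 + 1) * 2^(BB m d) = σ.1 * 2^(BB m d) + 2^(BB m d) := by ring
      omega
    have h3 : (σ.1 * 2^(BB m d) + σ.2.1 + 1) * (nR m d + 1) =
      (σ.1 * 2^(BB m d) + σ.2.1) * (nR m d + 1) + (nR m d + 1) := by ring
    omega

include hev hKa hCb hQq hCc hQc hKr in
/-- the game cannot be played -/
theorem game_false : False := by
  have hnh := not_halt m a b q hKa hCb hQq hCc hQc hKr d
  have hprog := progress m a b q hCb hCc d hev hnh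
  have hub : ∀ N, ∃ t, N ≤ Mz m d (st m a b q d t) := by
    intro N
    induction N with
    | zero => exact ⟨0, Nat.zero_le _⟩
    | succ N ih =>
      obtain ⟨t, ht⟩ := ih
      obtain ⟨t', ht'⟩ := hprog t
      exact ⟨t', by omega⟩
  obtain ⟨t, ht⟩ := hub ((2^(k0 m d - 1) * 2^(BB m d) + 2^(BB m d)) * (nR m d + 1) + nR m d + 1)
  have h1 := s_lt m a b q hCb hCc d t
  have h2 := W_lt m a b q hCb hCc d t
  have h3 := (W_inv m a b q d t).2
  have h4 := j_le m a b q d t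
  unfold Mz at ht
  have h5 : ((st m a b q d t).1 * 2^(BB m d) + (st m a b q d t).2.1) * (nR m d + 1) ≤
      (2^(k0 m d - 1) * 2^(BB m d) + 2^(BB m d)) * (nR m d + 1) := by
    apply Nat.mul_le_mul_right
    have : (st m a b q d t).1 * 2^(BB m d) ≤ 2^(k0 m d - 1) * 2^(BB m d) :=
      Nat.mul_le_mul_right _ (by omega)
    omega
  omega

end progress
end win

end Pool.Agent.TH676.CK
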