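import Mathlib
import Pool.Agent.TH676.CK.Win
import Pool.Agent.TH676.CK.Comp
import Pool.Agent.Helper981.KP.Main

/-!
The requests of the game, and the abstract form of the theorem: for prefix complexity `K` and plain
complexity `C`, the value `C x` cannot be described with boundedly many bits given `x` and `K x`.
-/

set_option autoImplicit false
open Finset

namespace Pool.Agent.TH676.CK

open Pool.Agent.Helper981.KP (USC Kraft IsKP fmin approx_le finite_of_kraft computable_fmin)

/-- at most `2^(k+1)` numbers have complexity at most `k` -/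
def PCount (C : ℕ → ℕ) : Prop :=
  ∀ (k : ℕ) (U : Finset ℕ), (∀ x ∈ U, C x ≤ k) → U.card ≤ 2^(k+1)

/-- `C` is plain complexity: upper semicomputable with the counting property, and minimal up to an
additive constant among all such functions. -/
def IsPlain (C : ℕ → ℕ) : Prop :=
  USC C ∧ PCount C ∧ ∀ C' : ℕ → ℕ, USC C' → PCount C' → ∃ c : ℕ, ∀ x, C x ≤ C' x + c

lemma approx_plain {C : ℕ → ℕ} (hC : IsPlain C) (g : ℕ → ℕ → ℕ) (hg : Computable₂ g)
    (hct : ∀ (k : ℕ) (U : Finset ℕ) (τ : ℕ → ℕ), (∀ u ∈ U, g u (τ u) ≤ k) → U.card ≤ 2^(k+1)) :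
    ∃ c : ℕ, ∀ u t, C u ≤ g u t + c := by
  classical
  have hne : ∀ u, (Set.range (g u)).Nonempty := fun u => ⟨g u 0, 0, rfl⟩
  have hmem : ∀ u, ∃ t, g u t = sInf (Set.range (g u)) := fun u => Nat.sInf_mem (hne u)
  choose τ hτ using hmem
  have husc : USC (fun u => sInf (Set.range (g u))) :=
    ⟨g, hg, fun x => ⟨fun t => Nat.sInf_le (Set.mem_range_self t), ⟨τ x, hτ x⟩⟩⟩
  obtain ⟨c, hc⟩ := hC.2.2 (fun u => sInf (Set.range (g u))) husc (by
    intro k U hU
    apply hct k U τ
    intro u hu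
    rw [hτ]
    exact hU u hu)
  refine ⟨c, fun u t => (hc u).trans ?_⟩
  exact Nat.add_le_add_right (Nat.sInf_le (Set.mem_range_self t)) c

/-! ### minima of approximations -/

lemma fmin_succ (f : ℕ → ℕ → ℕ) (x t : ℕ) : fmin f x (t+1) = min (fmin f x t) (f x (t+1)) := rfl

lemma le_fmin' {K : ℕ → ℕ} {f : ℕ → ℕ → ℕ} (h : ∀ x t, K x ≤ f x t) (x t : ℕ) :
    K x ≤ fmin f x t := by
  induction t with
  | zero => exact h x 0
  | succ t ih => rw [fmin_succ]; exact le_min ih (h x (t+1))

lemma fmin_le' (f : ℕ → ℕ → ℕ) (x t : ℕ) : fmin f x t ≤ f x t := by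
  cases t with
  | zero => exact le_rfl
  | succ t => rw [fmin_succ]; exact min_le_right _ _

lemma fmin_anti' (f : ℕ → ℕ → ℕ) (x : ℕ) {t t' : ℕ} (h : t ≤ t') : fmin f x t' ≤ fmin f x t := by
  induction t', h using Nat.le_induction with
  | base => exact le_rfl
  | succ t' _ ih => rw [fmin_succ]; exact (min_le_left _ _).trans ih

/-- a good approximation from above -/
lemma exists_approx {K : ℕ → ℕ} (h : USC K) : ∃ a : ℕ → ℕ → ℕ, Computable₂ a ∧
    (∀ x t, K x ≤ a x t) ∧ ∀ x, ∃ t₀, ∀ t ≥ t₀, a x t = K x := by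
  obtain ⟨f, hf, hfK⟩ := h
  refine ⟨fmin f, computable_fmin hf, fun x t => le_fmin' (fun x t => (hfK x).1 t) x t, ?_⟩
  intro x
  obtain ⟨t₀, ht₀⟩ := (hfK x).2
  refine ⟨t₀, fun t ht => le_antisymm ?_ (le_fmin' (fun x t => (hfK x).1 t) x t)⟩
  exact (fmin_anti' f x ht).trans ((fmin_le' f x t₀).trans ht₀.le)

/-! ### geometric sums -/

lemma geo2 (N : ℕ) : ∑ d ∈ Finset.range N, ((1:ℝ)/2)^(d+2) ≤ 1/2 := by
  have : ∑ d ∈ Finset.range N, ((1:ℝ)/2)^(d+2) = 1/2 - (1/2)^(N+1) := by
    induction N with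
    | zero => norm_num
    | succ N ih => rw [Finset.sum_range_succ, ih]; ring
  rw [this]
  have h : (0:ℝ) ≤ (1/2)^(N+1) := by positivity
  linarith

lemma geo_up (L : ℕ) : ∑ l ∈ Finset.range (L+1), (2:ℝ)^l ≤ 2^(L+1) := by
  have : ∑ l ∈ Finset.range (L+1), (2:ℝ)^l = 2^(L+1) - 1 := by
    induction L with
    | zero => norm_num
    | succ L ih => rw [Finset.sum_range_succ, ih]; ring
  rw [this]; linarith

/-! ### the requests -/

section requests
variable (m : ℕ) (a b q : ℕ → ℕ → ℕ)

/-- coordinates of a code -/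
def xd (x : ℕ) : ℕ := x.unpair.1.unpair.1
def xg (x : ℕ) : ℕ := x.unpair.1.unpair.2
def xs (x : ℕ) : ℕ := x.unpair.2.unpair.1
def xw (x : ℕ) : ℕ := x.unpair.2.unpair.2

lemma cd_x (x : ℕ) : cd (xd x) (xg x) (xs x) (xw x) = x := by
  unfold cd xd xg xs xw
  simp [Nat.pair_unpair]

lemma x_ext {x y : ℕ} (h1 : xd x = xd y) (h2 : xg x = xg y) (h3 : xs x = xs y) (h4 : xw x = xw y) :
    x = y := by
  rw [← cd_x x, ← cd_x y, h1, h2, h3, h4]

lemma xd_cd (d g s w : ℕ) : xd (cd d g s w) = d := by simp [xd, cd]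
lemma xg_cd (d g s w : ℕ) : xg (cd d g s w) = g := by simp [xg, cd]
lemma xs_cd (d g s w : ℕ) : xs (cd d g s w) = s := by simp [xs, cd]
lemma xw_cd (d g s w : ℕ) : xw (cd d g s w) = w := by simp [xw, cd]

/-- `x` belongs to the block of its game at time `t` -/
def act (x t : ℕ) : Prop :=
  (st m a b q (xd x) t).1 = xg x ∧ (st m a b q (xd x) t).2.1 = xs x ∧ xw x < 2^(ii m (xd x) (xg x))

instance (x t : ℕ) : Decidable (act m a b q x t) := by unfold act; infer_instance

/-- `x` is active, and its game is not at the end of a subgame -/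
def actC (x t : ℕ) : Prop := act m a b q x t ∧ (st m a b q (xd x) t).2.2.1 < nR m (xd x)

instance (x t : ℕ) : Decidable (actC m a b q x t) := by unfold actC; infer_instance

def gK (x t : ℕ) : ℕ :=
  if act m a b q x t then ii m (xd x) (xg x) + (k0 m (xd x) - xs x) + xd x + 1 else x + 2

def gC (x t : ℕ) : ℕ :=
  if actC m a b q x t then vv m (xd x) (xg x) (st m a b q (xd x) t).2.2.1 - xd x else x + 2

section comp
variable {a b q} (ha : Computable₂ a) (hb : Computable₂ b) (hq : Computable₂ q)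

lemma c_xd : Computable xd := Computable.fst.comp (Computable.unpair.comp
  (Computable.fst.comp Computable.unpair))
lemma c_xg : Computable xg := Computable.snd.comp (Computable.unpair.comp
  (Computable.fst.comp Computable.unpair))
lemma c_xs : Computable xs := Computable.fst.comp (Computable.unpair.comp
  (Computable.snd.comp Computable.unpair))
lemma c_xw : Computable xw := Computable.snd.comp (Computable.unpair.comp
  (Computable.snd.comp Computable.unpair))

include ha hb hq in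
lemma c_act : Computable (fun p : ℕ × ℕ => decide (act m a b q p.1 p.2)) := by
  have h1 : Computable (fun p : ℕ × ℕ => st m a b q (xd p.1) p.2) :=
    c_st m ha hb hq (c_xd.comp Computable.fst) Computable.snd
  have h2 : Computable (fun p : ℕ × ℕ => decide ((st m a b q (xd p.1) p.2).1 = xg p.1) &&
      (decide ((st m a b q (xd p.1) p.2).2.1 = xs p.1) &&
        decide (xw p.1 < 2^(ii m (xd p.1) (xg p.1))))) := by
    refine c_and (c_eq (Computable.fst.comp h1) (c_xg.comp Computable.fst)) (c_and ?_ ?_)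
    · exact c_eq (Computable.fst.comp (Computable.snd.comp h1)) (c_xs.comp Computable.fst)
    · exact c_lt (c_xw.comp Computable.fst)
        (c_pow2 (c_ii m (c_xd.comp Computable.fst) (c_xg.comp Computable.fst)))
  refine h2.of_eq fun p => ?_
  rw [Bool.eq_iff_iff]
  simp only [Bool.and_eq_true, decide_eq_true_eq]
  exact Iff.rfl

include ha hb hq in
lemma c_actC : Computable (fun p : ℕ × ℕ => decide (actC m a b q p.1 p.2)) := by
  have h1 : Computable (fun p : ℕ × ℕ => st m a b q (xd p.1) p.2) :=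
    c_st m ha hb hq (c_xd.comp Computable.fst) Computable.snd
  have h2 : Computable (fun p : ℕ × ℕ => decide (act m a b q p.1 p.2) &&
      decide ((st m a b q (xd p.1) p.2).2.2.1 < nR m (xd p.1))) := by
    refine c_and (c_act m ha hb hq) ?_
    exact c_lt (Computable.fst.comp (Computable.snd.comp (Computable.snd.comp h1)))
      (c_nR m (c_xd.comp Computable.fst))
  refine h2.of_eq fun p => ?_
  rw [Bool.eq_iff_iff]
  simp only [Bool.and_eq_true, decide_eq_true_eq]
  exact Iff.rfl

include ha hb hq in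
lemma c_gK : Computable₂ (gK m a b q) := by
  have hd : Computable (fun p : ℕ × ℕ => xd p.1) := c_xd.comp Computable.fst
  have hg : Computable (fun p : ℕ × ℕ => xg p.1) := c_xg.comp Computable.fst
  have hs : Computable (fun p : ℕ × ℕ => xs p.1) := c_xs.comp Computable.fst
  unfold gK
  refine c_ite (p := fun p : ℕ × ℕ => act m a b q p.1 p.2) (c_act m ha hb hq) ?_ ?_
  · exact c_add (c_add (c_add (c_ii m hd hg) (c_sub (c_k0 m hd) hs)) hd) (Computable.const 1)
  · exact c_add Computable.fst (Computable.const 2)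

include ha hb hq in
lemma c_gC : Computable₂ (gC m a b q) := by
  have hd : Computable (fun p : ℕ × ℕ => xd p.1) := c_xd.comp Computable.fst
  have hg : Computable (fun p : ℕ × ℕ => xg p.1) := c_xg.comp Computable.fst
  have h1 : Computable (fun p : ℕ × ℕ => st m a b q (xd p.1) p.2) :=
    c_st m ha hb hq (c_xd.comp Computable.fst) Computable.snd
  unfold gC
  refine c_ite (p := fun p : ℕ × ℕ => actC m a b q p.1 p.2) (c_actC m ha hb hq) ?_ ?_
  · exact c_sub (c_vv m hd hg (Computable.fst.comp (Computable.snd.comp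
      (Computable.snd.comp h1)))) hd
  · exact c_add Computable.fst (Computable.const 2)

end comp

section bounds
variable {C : ℕ → ℕ} (hCb : ∀ x t, C x ≤ b x t)
  (hCc : ∀ (k : ℕ) (U : Finset ℕ), (∀ x ∈ U, C x ≤ k) → U.card ≤ 2^(k+1))

include hCb hCc in
/-- weight of the prefix requests of one game -/
lemma K_weight_d (d T : ℕ) (U : Finset ℕ) (hd : ∀ u ∈ U, xd u = d)
    (hU : ∀ u ∈ U, ∃ t ≤ T, act m a b q u t) :
    ∑ u ∈ U, ((1:ℝ)/2)^(ii m (xd u) (xg u) + (k0 m (xd u) - xs u) + xd u + 1) ≤ (1/2)^(d+2) := by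
  classical
  have hmaps : ∀ u ∈ U, (xg u, xs u) ∈ vis m a b q d T := by
    intro u hu
    obtain ⟨t, ht, h1, h2, -⟩ := hU u hu
    rw [hd u hu] at h1 h2
    exact Finset.mem_image.2 ⟨t, Finset.mem_range.2 (by omega), by rw [h1, h2]⟩
  rw [← Finset.sum_fiberwise_of_maps_to hmaps]
  have hin : ∀ p ∈ vis m a b q d T, ∑ u ∈ U.filter (fun u => (xg u, xs u) = p),
      ((1:ℝ)/2)^(ii m (xd u) (xg u) + (k0 m (xd u) - xs u) + xd u + 1) ≤
      2^p.2 * ((1/2)^(k0 m d) * (1/2)^(d+1)) := by
    intro p hp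
    have hp2 : p.2 ≤ k0 m d := by
      obtain ⟨t, -, h1⟩ := Finset.mem_image.1 hp
      have h2 := s_lt m a b q hCb hCc d t
      have h3 : p.2 = (st m a b q d t).2.1 := by rw [← h1]
      unfold k0
      omega
    have h1 : ∀ u ∈ U.filter (fun u => (xg u, xs u) = p),
        ((1:ℝ)/2)^(ii m (xd u) (xg u) + (k0 m (xd u) - xs u) + xd u + 1) =
        (1/2)^(ii m d p.1 + (k0 m d - p.2) + d + 1) := by
      intro u hu
      rw [Finset.mem_filter] at hu
      have h2 : xg u = p.1 := congrArg Prod.fst hu.2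
      have h3 : xs u = p.2 := congrArg Prod.snd hu.2
      rw [hd u hu.1, h2, h3]
    rw [Finset.sum_congr rfl h1, Finset.sum_const, nsmul_eq_mul]
    have hcard : (U.filter (fun u => (xg u, xs u) = p)).card ≤ 2^(ii m d p.1) := by
      rw [← Finset.card_range (2^(ii m d p.1))]
      apply Finset.card_le_card_of_injOn xw
      · intro u hu
        have hu' := Finset.mem_filter.1 hu
        obtain ⟨t, -, -, -, h4⟩ := hU u hu'.1
        have h2 : xg u = p.1 := congrArg Prod.fst hu'.2
        rw [hd u hu'.1, h2] at h4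
        exact Finset.mem_coe.2 (Finset.mem_range.2 h4)
      · intro u hu u' hu' h
        have hu1 := Finset.mem_filter.1 hu
        have hu1' := Finset.mem_filter.1 hu'
        have e := hu1.2.trans hu1'.2.symm
        exact x_ext ((hd u hu1.1).trans (hd u' hu1'.1).symm) (congrArg Prod.fst e)
          (congrArg Prod.snd e) h
    have hcard' : ((U.filter (fun u => (xg u, xs u) = p)).card : ℝ) ≤ 2^(ii m d p.1) := by
      exact_mod_cast hcard
    have h5 : ((1:ℝ)/2)^(ii m d p.1 + (k0 m d - p.2) + d + 1) =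
        (1/2)^(ii m d p.1) * (2^p.2 * ((1/2)^(k0 m d) * (1/2)^(d+1))) := by
      have : ii m d p.1 + (k0 m d - p.2) + d + 1 = ii m d p.1 + (k0 m d - p.2) + (d + 1) := by
        omega
      rw [this, pow_add, pow_add, half_pow_sub hp2]
      ring
    rw [h5]
    have h6 : (2:ℝ)^(ii m d p.1) * (1/2)^(ii m d p.1) = 1 := by rw [← mul_pow]; norm_num
    calc ((U.filter (fun u => (xg u, xs u) = p)).card : ℝ) *
          ((1/2)^(ii m d p.1) * (2^p.2 * ((1/2)^(k0 m d) * (1/2)^(d+1))))
        ≤ 2^(ii m d p.1) * ((1/2)^(ii m d p.1) * (2^p.2 * ((1/2)^(k0 m d) * (1/2)^(d+1)))) :=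
          mul_le_mul_of_nonneg_right hcard' (by positivity)
      _ = (2^(ii m d p.1) * (1/2)^(ii m d p.1)) * (2^p.2 * ((1/2)^(k0 m d) * (1/2)^(d+1))) := by
          ring
      _ = _ := by rw [h6, one_mul]
  refine (Finset.sum_le_sum hin).trans ?_
  rw [← Finset.sum_mul]
  have h7 : (∑ p ∈ vis m a b q d T, (2:ℝ)^p.2) ≤ 2^(k0 m d - 1) := by
    have h8 := vis_sum m a b q d T
    have h9 := W_lt m a b q hCb hCc d T
    exact_mod_cast h8.trans h9.le
  calc (∑ p ∈ vis m a b q d T, (2:ℝ)^p.2) * ((1/2)^(k0 m d) * (1/2)^(d+1))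
      ≤ 2^(k0 m d - 1) * ((1/2)^(k0 m d) * (1/2)^(d+1)) :=
        mul_le_mul_of_nonneg_right h7 (by positivity)
    _ = (1/2)^(d+2) := by
        have h10 : k0 m d = (k0 m d - 1) + 1 := by
          have : 0 < 2^(BB m d) := by positivity
          unfold k0
          omega
        have h11 : ((1:ℝ)/2)^(k0 m d) = (1/2)^(k0 m d - 1) * (1/2) := by
          rw [← pow_succ, ← h10]
        have h12 : (2:ℝ)^(k0 m d - 1) * (1/2)^(k0 m d - 1) = 1 := by
          rw [← mul_pow]; norm_num
        rw [h11]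
        calc (2:ℝ)^(k0 m d - 1) * ((1/2)^(k0 m d - 1) * (1/2) * (1/2)^(d+1))
            = ((2:ℝ)^(k0 m d - 1) * (1/2)^(k0 m d - 1)) * ((1/2) * (1/2)^(d+1)) := by ring
          _ = _ := by rw [h12, one_mul, ← pow_succ']

include hCb hCc in
/-- Kraft's inequality for the prefix requests -/
lemma gK_kraft (U : Finset ℕ) (τ : ℕ → ℕ) : ∑ u ∈ U, ((1:ℝ)/2)^(gK m a b q u (τ u)) ≤ 1 := by
  classical
  rw [← Finset.sum_filter_add_sum_filter_not U (fun u => act m a b q u (τ u))]
  set U₁ := U.filter (fun u => act m a b q u (τ u)) with hU₁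
  set U₂ := U.filter (fun u => ¬ act m a b q u (τ u)) with hU₂
  have h2 : ∑ u ∈ U₂, ((1:ℝ)/2)^(gK m a b q u (τ u)) ≤ 1/2 := by
    have h3 : ∑ u ∈ U₂, ((1:ℝ)/2)^(gK m a b q u (τ u)) = ∑ u ∈ U₂, ((1:ℝ)/2)^(u+2) := by
      refine Finset.sum_congr rfl fun u hu => ?_
      rw [hU₂, Finset.mem_filter] at hu
      unfold gK
      rw [if_neg hu.2]
    rw [h3]
    refine le_trans ?_ (geo2 (U₂.sup id + 1))
    apply Finset.sum_le_sum_of_subset_of_nonneg
    · intro u hu
      have := Finset.le_sup (f := id) hu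
      simp only [id] at this
      exact Finset.mem_range.2 (Nat.lt_succ_of_le this)
    · intro _ _ _; positivity
  have h1 : ∑ u ∈ U₁, ((1:ℝ)/2)^(gK m a b q u (τ u)) ≤ 1/2 := by
    set N := U₁.sup xd + 1 with hN
    set T := U₁.sup τ with hT
    have hmaps : ∀ u ∈ U₁, xd u ∈ Finset.range N := fun u hu =>
      Finset.mem_range.2 (Nat.lt_succ_of_le (Finset.le_sup (f := xd) hu))
    rw [← Finset.sum_fiberwise_of_maps_to hmaps]
    refine le_trans (Finset.sum_le_sum fun d _ => ?_) (geo2 N)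
    have h4 : ∑ u ∈ U₁.filter (fun u => xd u = d), ((1:ℝ)/2)^(gK m a b q u (τ u)) =
        ∑ u ∈ U₁.filter (fun u => xd u = d),
          ((1:ℝ)/2)^(ii m (xd u) (xg u) + (k0 m (xd u) - xs u) + xd u + 1) := by
      refine Finset.sum_congr rfl fun u hu => ?_
      have hu' := (Finset.mem_filter.1 (Finset.mem_filter.1 hu).1).2
      unfold gK
      rw [if_pos hu']
    rw [h4]
    apply K_weight_d m a b q hCb hCc d T
    · intro u hu; exact (Finset.mem_filter.1 hu).2
    · intro u hu
      have hu1 := (Finset.mem_filter.1 hu).1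
      exact ⟨τ u, Finset.le_sup (f := τ) hu1, (Finset.mem_filter.1 hu1).2⟩
  linarith

include hCb hCc in
/-- number of plain requests of one game at one level -/
lemma C_count_d (d l T : ℕ) (U : Finset ℕ) (hd : ∀ u ∈ U, xd u = d)
    (hU : ∀ u ∈ U, ∃ t ≤ T, actC m a b q u t ∧
      vv m (xd u) (xg u) (st m a b q (xd u) t).2.2.1 - xd u = l) :
    (U.card : ℝ) ≤ 2^l * (1/2)^(d+2) := by
  classical
  rcases Finset.eq_empty_or_nonempty U with h0 | ⟨u₀, hu₀⟩
  · rw [h0]; simp
  · obtain ⟨t₀, -, ⟨⟨hg₀, -, -⟩, hj₀⟩, hl₀⟩ := hU u₀ hu₀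
    rw [hd u₀ hu₀] at hg₀ hj₀ hl₀
    set g := xg u₀ with hg
    set j := (st m a b q d t₀).2.2.1 with hj
    have hvge : ∀ g' j', j' < nR m d → 2*d+2 ≤ vv m d g' j' := by
      intro g' j' hj'
      have := mul_JJ_le (m := m) (d := d) hj'.le
      unfold vv
      omega
    have key : ∀ u ∈ U, xg u = g ∧ xs u ∈ visS m a b q d T g j ∧ xw u < 2^(ii m d g) := by
      intro u hu
      obtain ⟨t, ht, ⟨⟨h1, h2, h3⟩, h4⟩, h5⟩ := hU u hu
      rw [hd u hu] at h1 h2 h3 h4 h5
      have h6 : vv m d (xg u) (st m a b q d t).2.2.1 = vv m d g j := by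
        have h7 := hvge (xg u) _ h4
        have h8 := hvge g _ hj₀
        omega
      obtain ⟨h7, h8⟩ := vv_inj h4 hj₀ h6
      rw [h7] at h1 h3
      exact ⟨h7, (mem_visS m a b q).2 ⟨t, ht, h1, h8, h2⟩, h3⟩
    have hcard : U.card ≤ (visS m a b q d T g j ×ˢ Finset.range (2^(ii m d g))).card := by
      apply Finset.card_le_card_of_injOn (fun u => (xs u, xw u))
      · intro u hu
        obtain ⟨-, h2, h3⟩ := key u hu
        simp only [Finset.coe_product, Set.mem_prod, Finset.mem_coe, Finset.mem_range]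
        exact ⟨h2, h3⟩
      · intro u hu u' hu' h
        exact x_ext ((hd u hu).trans (hd u' hu').symm) ((key u hu).1.trans (key u' hu').1.symm)
          (congrArg Prod.fst h) (congrArg Prod.snd h)
    rw [Finset.card_product, Finset.card_range] at hcard
    have h9 := visS_card m a b q hCb hCc d T g j hj₀
    set y := BB m d - j * JJ m d - 2*d - 3 with hy
    have h10 : 1 + 2^y ≤ 2^(y+1) := by
      have : 0 < 2^y := by positivity
      rw [pow_succ]; omega
    have h11 : U.card ≤ 2^(y+1) * 2^(ii m d g) :=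
      hcard.trans (Nat.mul_le_mul_right _ (h9.trans h10))
    have h12 : l = (y + 1 + ii m d g) + (d + 2) := by
      have h13 := mul_JJ_le (m := m) (d := d) (j := j+1) hj₀
      have h14 : (j+1) * JJ m d = j * JJ m d + JJ m d := by ring
      have h15 : JJ m d = 2*d+4+ee m d := rfl
      rw [← hl₀, hy]
      unfold vv
      omega
    have h16 : (U.card : ℝ) ≤ 2^(y+1+ii m d g) := by
      rw [pow_add]
      exact_mod_cast h11
    refine h16.trans (le_of_eq ?_)
    have h17 : (2:ℝ)^(d+2) * (1/2)^(d+2) = 1 := by rw [← mul_pow]; norm_num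
    rw [h12, pow_add (2:ℝ) (y+1+ii m d g) (d+2), mul_assoc, h17, mul_one]

include hCb hCc in
/-- the counting property of the plain requests -/
lemma gC_count (k : ℕ) (U : Finset ℕ) (τ : ℕ → ℕ) (hU : ∀ u ∈ U, gC m a b q u (τ u) ≤ k) :
    U.card ≤ 2^(k+1) := by
  classical
  rw [← Finset.card_filter_add_card_filter_not (s := U) (fun u => actC m a b q u (τ u))]
  set U₁ := U.filter (fun u => actC m a b q u (τ u)) with hU₁
  set U₂ := U.filter (fun u => ¬ actC m a b q u (τ u)) with hU₂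
  have h2 : U₂.card ≤ 2^k := by
    have h3 : U₂.card ≤ (Finset.range k).card := by
      apply Finset.card_le_card
      intro u hu
      rw [hU₂, Finset.mem_filter] at hu
      have := hU u hu.1
      unfold gC at this
      rw [if_neg hu.2] at this
      exact Finset.mem_range.2 (by omega)
    rw [Finset.card_range] at h3
    exact h3.trans Nat.lt_two_pow_self.le
  have h1 : U₁.card ≤ 2^k := by
    set N := U₁.sup xd + 1 with hN
    set T := U₁.sup τ with hT
    set lev : ℕ → ℕ := fun u => vv m (xd u) (xg u) (st m a b q (xd u) (τ u)).2.2.1 - xd u with hlev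
    have hmaps : ∀ u ∈ U₁, (xd u, lev u) ∈ Finset.range N ×ˢ Finset.range (k+1) := by
      intro u hu
      have hu' := hu
      rw [hU₁, Finset.mem_filter] at hu
      have h3 := hU u hu.1
      unfold gC at h3
      rw [if_pos hu.2] at h3
      rw [Finset.mem_product]
      refine ⟨Finset.mem_range.2 (Nat.lt_succ_of_le (Finset.le_sup (f := xd) hu')),
        Finset.mem_range.2 (Nat.lt_succ_of_le h3)⟩
    have h4 : U₁.card = ∑ p ∈ Finset.range N ×ˢ Finset.range (k+1),
        (U₁.filter (fun u => (xd u, lev u) = p)).card :=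
      Finset.card_eq_sum_card_fiberwise hmaps
    have h5 : (U₁.card : ℝ) ≤ ∑ p ∈ Finset.range N ×ˢ Finset.range (k+1),
        (2:ℝ)^p.2 * (1/2)^(p.1+2) := by
      rw [h4]
      push_cast
      refine Finset.sum_le_sum fun p _ => ?_
      apply C_count_d m a b q hCb hCc p.1 p.2 T
      · intro u hu
        have h := (Finset.mem_filter.1 hu).2
        rw [← h]
      · intro u hu
        have hu1 := Finset.mem_filter.1 hu
        refine ⟨τ u, Finset.le_sup (f := τ) hu1.1, (Finset.mem_filter.1 hu1.1).2, ?_⟩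
        have h := hu1.2
        rw [← h]
    have h6 : ∑ p ∈ Finset.range N ×ˢ Finset.range (k+1), (2:ℝ)^p.2 * (1/2)^(p.1+2) =
        (∑ d ∈ Finset.range N, ((1:ℝ)/2)^(d+2)) * (∑ l ∈ Finset.range (k+1), (2:ℝ)^l) := by
      rw [Finset.sum_product, Finset.sum_mul]
      refine Finset.sum_congr rfl fun d _ => ?_
      rw [Finset.mul_sum]
      refine Finset.sum_congr rfl fun l _ => ?_
      ring
    have h7 : (U₁.card : ℝ) ≤ (1/2) * 2^(k+1) := by
      refine h5.trans ?_
      rw [h6]
      refine mul_le_mul (geo2 N) (geo_up k) ?_ (by norm_num)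
      exact Finset.sum_nonneg fun _ _ => by positivity
    have h8 : (U₁.card : ℝ) ≤ 2^k := by
      refine h7.trans (le_of_eq ?_)
      rw [pow_succ]; ring
    exact_mod_cast h8
  rw [pow_succ]; omega

end bounds

end requests

/-! ### the theorem in abstract form -/

/-- For prefix complexity `K`, plain complexity `C`, and any upper semicomputable `Q` with the
counting property in its first argument, `Q (C x | x, K x)` is unbounded. -/
theorem core {K C Q : ℕ → ℕ} (hK : IsKP K) (hC : IsPlain C) (hQ : USC Q)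
    (hQc : ∀ (k y : ℕ) (U : Finset ℕ), (∀ v ∈ U, Q (Nat.pair v y) ≤ k) → U.card ≤ 2^(k+1))
    (m : ℕ) : ∃ x, m < Q (Nat.pair (C x) (Nat.pair x (K x))) := by
  by_contra hc
  push Not at hc
  obtain ⟨a, ha, hKa, haK⟩ := exists_approx hK.1
  obtain ⟨b, hb, hCb, hbC⟩ := exists_approx hC.1
  obtain ⟨q, hq, hQq, hqQ⟩ := exists_approx hQ
  have hCc : ∀ (k : ℕ) (U : Finset ℕ), (∀ x ∈ U, C x ≤ k) → U.card ≤ 2^(k+1) := hC.2.1
  have hKr : ∀ U : Finset ℕ, ∑ x ∈ U, ((1:ℝ)/2)^(K x) ≤ 1 := finite_of_kraft hK.2.1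
  obtain ⟨c₁, hc₁⟩ := approx_le hK (gK m a b q) (c_gK m ha hb hq) (gK_kraft m a b q hCb hCc)
  obtain ⟨c₂, hc₂⟩ := approx_plain hC (gC m a b q) (c_gC m ha hb hq) (gC_count m a b q hCb hCc)
  refine game_false m a b q hKa hCb hQq hCc (hQc m) hKr (c₁ + c₂) ?_
  intro t hj w hw
  have hge := mul_JJ_le (m := m) (d := c₁ + c₂) hj.le
  set d := c₁ + c₂ with hd
  set σ := st m a b q d t with hσ
  set x := cd d σ.1 σ.2.1 w with hx
  have hact : act m a b q x t := by
    unfold act
    rw [hx, xd_cd, xg_cd, xs_cd, xw_cd]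
    exact ⟨rfl, rfl, hw⟩
  have hactC : actC m a b q x t := by
    refine ⟨hact, ?_⟩
    rw [hx, xd_cd]
    exact hj
  have h1 : K x ≤ kx m d σ.1 σ.2.1 := by
    have := hc₁ x t
    unfold gK at this
    rw [if_pos hact, hx, xd_cd, xg_cd, xs_cd] at this
    rw [hx]
    unfold kx
    omega
  have h2 : C x ≤ vv m d σ.1 σ.2.2.1 := by
    have h3 := hc₂ x t
    unfold gC at h3
    rw [if_pos hactC] at h3
    have h4 : xd x = d := by rw [hx, xd_cd]
    have h5 : xg x = σ.1 := by rw [hx, xg_cd]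
    rw [h4, h5] at h3
    have h6 : 2*d+2 ≤ vv m d σ.1 σ.2.2.1 := by
      unfold vv
      omega
    rw [← hσ] at h3
    omega
  obtain ⟨t₁, ht₁⟩ := haK x
  obtain ⟨t₂, ht₂⟩ := hbC x
  obtain ⟨t₃, ht₃⟩ := hqQ (Nat.pair (C x) (Nat.pair x (K x)))
  refine ⟨max t₁ (max t₂ t₃), fun t' ht' => ?_⟩
  have e1 := ht₁ t' (le_trans (le_max_left _ _) ht')
  have e2 := ht₂ t' (le_trans (le_trans (le_max_left _ _) (le_max_right _ _)) ht')
  have e3 := ht₃ t' (le_trans (le_trans (le_max_right _ _) (le_max_right _ _)) ht')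
  unfold okw
  rw [← hx, e1, e2, e3]
  simp only [Bool.and_eq_true, decide_eq_true_eq]
  exact ⟨h1, h2, hc x⟩

end Pool.Agent.TH676.CK
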