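import Mathlib

/-!
Optimal machines and the three complexities: plain, prefix-free, and conditional prefix-free.
-/

set_option autoImplicit false

namespace Pool.Agent.TH676.CK

/-- An optimal plain machine: a partial computable map `U` from programs (binary strings) to binary
strings which simulates every partial computable map `V` with programs longer by at most a
constant. -/
def OptPlain (U : List Bool →. List Bool) : Prop :=
  Partrec U ∧ ∀ V : List Bool →. List Bool, Partrec V →
    ∃ c : ℕ, ∀ p x : List Bool, x ∈ V p → ∃ q : List Bool, x ∈ U q ∧ q.length ≤ p.length + c

/-- A prefix-free machine: a partial computable map whose domain contains no program together with a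
proper extension of it. -/
def PFree (V : List Bool →. List Bool) : Prop :=
  Partrec V ∧ ∀ p q : List Bool, (V p).Dom → (V q).Dom → p <+: q → p = q

/-- An optimal prefix-free machine. -/
def OptPFree (U : List Bool →. List Bool) : Prop :=
  PFree U ∧ ∀ V : List Bool →. List Bool, PFree V →
    ∃ c : ℕ, ∀ p x : List Bool, x ∈ V p → ∃ q : List Bool, x ∈ U q ∧ q.length ≤ p.length + c

/-- A conditional prefix-free machine: `W p y` is the output on program `p` and condition `y`; for
every condition the set of halting programs is prefix-free. -/
def CondPFree (W : List Bool → List Bool →. List Bool) : Prop :=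
  Partrec₂ W ∧ ∀ y p q : List Bool, (W p y).Dom → (W q y).Dom → p <+: q → p = q

/-- An optimal conditional prefix-free machine. -/
def OptCondPFree (W : List Bool → List Bool →. List Bool) : Prop :=
  CondPFree W ∧ ∀ V : List Bool → List Bool →. List Bool, CondPFree V →
    ∃ c : ℕ, ∀ p x y : List Bool, x ∈ V p y →
      ∃ q : List Bool, x ∈ W q y ∧ q.length ≤ p.length + c

/-- The complexity of `x` with respect to the machine `U`: the least length of a program for `x`.
For an optimal plain machine this is `C(x)`, for an optimal prefix-free machine it is `K(x)`. -/
noncomputable def cx (U : List Bool →. List Bool) (x : List Bool) : ℕ :=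
  sInf {l : ℕ | ∃ p : List Bool, p.length = l ∧ x ∈ U p}

/-- The conditional complexity of `x` given `y` with respect to the conditional machine `W`: the
least length of a program that turns `y` into `x`.  For an optimal conditional prefix-free machine
this is `K(x | y)`. -/
noncomputable def ccx (W : List Bool → List Bool →. List Bool) (x y : List Bool) : ℕ :=
  sInf {l : ℕ | ∃ p : List Bool, p.length = l ∧ x ∈ W p y}

end Pool.Agent.TH676.CK
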