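import Mathlib
import Pool.Agent.TH676.CK.Core
import Pool.Agent.TH676.CK.Defs
import Pool.Agent.Helper981.KP.KC

/-!
From machines to the abstract theorem.
-/

set_option autoImplicit false
open Finset

namespace Pool.Agent.TH676.CK

open Pool.Agent.Helper981.KP (USC Kraft IsKP bval bval_lt exists_bval primrec_bval ones length_ones
  primrec_ones una length_una primrec_una una_pf V0 V0_pf V0_mem kraft_of_finite kraft_pf
  isKP_of_optimal KPof KPof_comp OptimalPF opt_total)

/-! ### general facts -/

/-- complexities given by a machine with a parameter are upper semicomputable -/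
lemma usc_gen (M : List Bool → ℕ →. List Bool) (hM : Partrec₂ M) (o : ℕ → List Bool)
    (ho : Computable o) (B : ℕ → ℕ) (hB : Computable B)
    (hBM : ∀ z, ∃ p, o z ∈ M p z ∧ p.length ≤ B z) :
    USC (fun z => sInf {l : ℕ | ∃ p : List Bool, p.length = l ∧ o z ∈ M p z}) := by
  have hM' : Partrec (fun x : List Bool × ℕ => M x.1 x.2) := hM
  obtain ⟨cM, hcM⟩ := Nat.Partrec.Code.exists_code.1 hM'
  set f : ℕ → ℕ → ℕ := fun z t =>
    if Nat.Partrec.Code.evaln t.unpair.2 cM (Nat.pair t.unpair.1 z) =
        some (Encodable.encode (o z)) then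
      min (((Encodable.decode t.unpair.1 : Option (List Bool)).getD []).length) (B z) else B z
    with hf
  have hmem : ∀ (p x : List Bool) (z : ℕ),
      Encodable.encode x ∈ cM.eval (Nat.pair (Encodable.encode p) z) ↔ x ∈ M p z := by
    intro p x z
    have e : Nat.pair (Encodable.encode p) z = Encodable.encode (p, z) := by
      rw [Encodable.encode_prod_val, Encodable.encode_nat]
    rw [hcM, e]
    simp only [Encodable.encodek, Part.coe_some, Part.bind_some, Part.mem_map_iff]
    constructor
    · rintro ⟨y, hy, he⟩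
      rwa [← Encodable.encode_injective he]
    · intro h; exact ⟨x, h, rfl⟩
  refine ⟨f, ?_, ?_⟩
  · have p1 : Computable (fun p : ℕ × ℕ => p.2.unpair.1) :=
      Computable.fst.comp (Computable.unpair.comp Computable.snd)
    have p2 : Computable (fun p : ℕ × ℕ => p.2.unpair.2) :=
      Computable.snd.comp (Computable.unpair.comp Computable.snd)
    have hE : Computable (fun p : ℕ × ℕ =>
        Nat.Partrec.Code.evaln p.2.unpair.2 cM (Nat.pair p.2.unpair.1 p.1)) :=
      (Nat.Partrec.Code.primrec_evaln.to_comp).comp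
        (Computable.pair (Computable.pair p2 (Computable.const cM)) (c_pair p1 Computable.fst))
    refine c_ite (p := fun p : ℕ × ℕ => Nat.Partrec.Code.evaln p.2.unpair.2 cM
      (Nat.pair p.2.unpair.1 p.1) = some (Encodable.encode (o p.1))) ?_ ?_ (hB.comp Computable.fst)
    · exact (Primrec.eq.decide.to_comp).comp hE
        (Computable.option_some.comp (Computable.encode.comp (ho.comp Computable.fst)))
    · refine (Primrec.nat_min.to_comp).comp ?_ (hB.comp Computable.fst)
      exact Primrec.list_length.to_comp.comp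
        (Computable.option_getD (Computable.decode.comp p1) (Computable.const []))
  · intro z
    obtain ⟨p₀, hp₀, hl₀⟩ := hBM z
    have hle : sInf {l : ℕ | ∃ p : List Bool, p.length = l ∧ o z ∈ M p z} ≤ B z := by
      refine le_trans (Nat.sInf_le ?_) hl₀
      exact ⟨p₀, rfl, hp₀⟩
    constructor
    · intro t
      simp only [hf]
      split_ifs with h1
      · refine le_min ?_ hle
        have h2 : Encodable.encode (o z) ∈ cM.eval (Nat.pair t.unpair.1 z) :=
          Nat.Partrec.Code.evaln_sound (by rw [h1]; rfl)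
        rw [hcM] at h2
        simp only [Part.mem_bind_iff, Part.mem_map_iff, Part.mem_ofOption] at h2
        obtain ⟨⟨p, z'⟩, hp, y, hy, he⟩ := h2
        have hy' : y = o z := Encodable.encode_injective he
        rw [Option.mem_def, Encodable.decode_prod_val] at hp
        obtain ⟨p', hp', hpz⟩ := Option.bind_eq_some_iff.1 hp
        simp only [Nat.unpair_pair, Encodable.decode_nat, Option.map_some, Option.some.injEq,
          Prod.mk.injEq] at hp' hpz
        obtain ⟨rfl, rfl⟩ := hpz
        rw [hp']
        rw [hy'] at hy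
        exact Nat.sInf_le ⟨_, rfl, hy⟩
      · exact hle
    · have hne : {l : ℕ | ∃ p : List Bool, p.length = l ∧ o z ∈ M p z}.Nonempty :=
        ⟨_, p₀, rfl, hp₀⟩
      obtain ⟨p, hpl, hp⟩ := Nat.sInf_mem hne
      obtain ⟨s, hs⟩ := Nat.Partrec.Code.evaln_complete.1 ((hmem p (o z) z).2 hp)
      refine ⟨Nat.pair (Encodable.encode p) s, ?_⟩
      simp only [hf, Nat.unpair_pair]
      rw [if_pos (Option.mem_def.1 hs), Encodable.encodek]
      simp only [Option.getD_some]
      rw [hpl]
      exact min_eq_left hle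

lemma card_len (l : ℕ) (S : Finset (List Bool)) (h : ∀ p ∈ S, p.length = l) : S.card ≤ 2^l := by
  classical
  have h1 : S ⊆ (Finset.univ : Finset (Fin l → Bool)).image List.ofFn := by
    intro p hp
    rw [Finset.mem_image]
    have hl := h p hp
    refine ⟨fun i => p.get (i.cast hl.symm), Finset.mem_univ _, ?_⟩
    subst hl
    exact List.ofFn_get p
  have h2 := Finset.card_le_card h1
  refine h2.trans (Finset.card_image_le.trans ?_)
  simp

lemma card_short (k : ℕ) (S : Finset (List Bool)) (h : ∀ p ∈ S, p.length ≤ k) :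
    S.card ≤ 2^(k+1) := by
  classical
  have hmaps : ∀ p ∈ S, p.length ∈ Finset.range (k+1) := fun p hp =>
    Finset.mem_range.2 (Nat.lt_succ_of_le (h p hp))
  rw [Finset.card_eq_sum_card_fiberwise hmaps]
  have h1 : ∀ l ∈ Finset.range (k+1), (S.filter fun p => p.length = l).card ≤ 2^l := by
    intro l _
    apply card_len
    intro p hp
    exact (Finset.mem_filter.1 hp).2
  refine (Finset.sum_le_sum h1).trans ?_
  have h2 : ∀ n, ∑ l ∈ Finset.range n, 2^l = 2^n - 1 := by
    intro n
    induction n with
    | zero => simp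
    | succ n ih =>
      rw [Finset.sum_range_succ, ih, pow_succ]
      have : 0 < 2^n := by positivity
      omega
  rw [h2]
  exact Nat.sub_le _ _

/-- few objects have short programs -/
lemma count_gen (M : List Bool →. List Bool) (o : ℕ → List Bool) (ho : Function.Injective o)
    (hT : ∀ z, ∃ p, o z ∈ M p) (k : ℕ) (U : Finset ℕ)
    (h : ∀ z ∈ U, sInf {l : ℕ | ∃ p : List Bool, p.length = l ∧ o z ∈ M p} ≤ k) :
    U.card ≤ 2^(k+1) := by
  classical
  have h1 : ∀ z, ∃ p : List Bool, o z ∈ M p ∧
      p.length = sInf {l : ℕ | ∃ p : List Bool, p.length = l ∧ o z ∈ M p} := by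
    intro z
    obtain ⟨p₀, hp₀⟩ := hT z
    have hne : {l : ℕ | ∃ p : List Bool, p.length = l ∧ o z ∈ M p}.Nonempty := ⟨_, p₀, rfl, hp₀⟩
    obtain ⟨p, hpl, hp⟩ := Nat.sInf_mem hne
    exact ⟨p, hp, hpl⟩
  choose π hπ hπl using h1
  have hinj : Function.Injective π := by
    intro z z' hz
    have h2 := hπ z
    rw [hz] at h2
    exact ho (Part.mem_unique h2 (hπ z'))
  rw [← Finset.card_image_of_injective U hinj]
  apply card_short
  intro p hp
  obtain ⟨z, hz, rfl⟩ := Finset.mem_image.1 hp
  rw [hπl]
  exact h z hz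

/-! ### prefix complexity -/

section pf
variable {V : List Bool →. List Bool} (hV : OptPFree V) (str : ℕ ≃ List Bool)

include hV in
lemma optimalPF_of : OptimalPF V := hV

include hV in
/-- `n ↦ K(n)` is prefix complexity in the abstract sense -/
lemma isKP_cx (hs : Computable str) : IsKP (fun n => cx V (str n)) := by
  classical
  have hO : OptimalPF V := hV
  obtain ⟨c₀, hc₀⟩ := hV.2 V0 V0_pf
  have hT : ∀ x, ∃ p, x ∈ V p ∧ p.length ≤ Encodable.encode x + 1 + c₀ := by
    intro x
    obtain ⟨p, hp, hl⟩ := hc₀ _ x (V0_mem x)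
    rw [length_una] at hl
    exact ⟨p, hp, hl⟩
  refine ⟨?_, ?_, ?_⟩
  · exact usc_gen (fun p _ => V p) (hV.1.1.comp Computable.fst) str hs
      (fun z => Encodable.encode (str z) + 1 + c₀)
      (c_add (c_add (Computable.encode.comp hs) (Computable.const 1)) (Computable.const c₀))
      (fun z => hT (str z))
  · apply kraft_of_finite
    intro U
    have h1 : ∀ z, ∃ p : List Bool, str z ∈ V p ∧ p.length = cx V (str z) := by
      intro z
      obtain ⟨p₀, hp₀, -⟩ := hT (str z)
      have hne : {l : ℕ | ∃ p : List Bool, p.length = l ∧ str z ∈ V p}.Nonempty :=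
        ⟨_, p₀, rfl, hp₀⟩
      obtain ⟨p, hpl, hp⟩ := Nat.sInf_mem hne
      exact ⟨p, hp, hpl⟩
    choose π hπ hπl using h1
    have hinj : Function.Injective π := by
      intro z z' hz
      have h2 := hπ z
      rw [hz] at h2
      exact str.injective (Part.mem_unique h2 (hπ z'))
    have e : ∑ u ∈ U, ((1:ℝ)/2)^(cx V (str u)) = ∑ p ∈ U.image π, ((1:ℝ)/2)^p.length := by
      rw [Finset.sum_image (fun a _ b _ h => hinj h)]
      refine Finset.sum_congr rfl fun u _ => ?_
      rw [hπl]
    rw [e]
    apply kraft_pf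
    intro p hp p' hp' hpp
    rw [Finset.mem_image] at hp hp'
    obtain ⟨u, _, rfl⟩ := hp
    obtain ⟨u', _, rfl⟩ := hp'
    exact hV.1.2 _ _ (Part.dom_iff_mem.2 ⟨_, hπ u⟩) (Part.dom_iff_mem.2 ⟨_, hπ u'⟩) hpp
  · intro K' husc hkr
    obtain ⟨c₁, hc₁⟩ := (isKP_of_optimal hO).2.2 K' husc hkr
    have hh : Partrec (fun x : List Bool => (Part.some (str x.length) : Part (List Bool))) :=
      (hs.comp Computable.list_length).partrec
    obtain ⟨c₂, hc₂⟩ := KPof_comp hO _ hh
    refine ⟨c₁ + c₂, fun n => ?_⟩
    have h1 := hc₂ (ones n) (str n) (by rw [length_ones]; exact Part.mem_some _)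
    have h2 := hc₁ n
    have e : cx V (str n) = KPof V (str n) := rfl
    change cx V (str n) ≤ K' n + (c₁ + c₂)
    rw [e]
    simp only at h2
    omega

end pf

/-! ### plain complexity -/

/-- enumeration, without repetition, of the numbers found to have complexity at most `k` -/
def en (f : ℕ → ℕ → ℕ) (k n : ℕ) : List ℕ :=
  Nat.rec [] (fun n acc => if f n.unpair.1 n.unpair.2 ≤ k ∧ ¬ (∃ y ∈ acc, y = n.unpair.1) then
    acc ++ [n.unpair.1] else acc) n

lemma en_succ (f : ℕ → ℕ → ℕ) (k n : ℕ) : en f k (n+1) =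
    if f n.unpair.1 n.unpair.2 ≤ k ∧ ¬ (∃ y ∈ en f k n, y = n.unpair.1) then
      en f k n ++ [n.unpair.1] else en f k n := rfl

lemma en_prefix (f : ℕ → ℕ → ℕ) (k : ℕ) {n n' : ℕ} (h : n ≤ n') : en f k n <+: en f k n' := by
  induction n', h using Nat.le_induction with
  | base => exact List.prefix_rfl
  | succ n' _ ih =>
    refine ih.trans ?_
    rw [en_succ]
    split_ifs
    · exact List.prefix_append _ _
    · exact List.prefix_rfl

lemma en_nodup (f : ℕ → ℕ → ℕ) (k n : ℕ) : (en f k n).Nodup := by
  induction n with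
  | zero => exact List.nodup_nil
  | succ n ih =>
    rw [en_succ]
    split_ifs with h
    · rw [List.nodup_append]
      refine ⟨ih, List.nodup_singleton _, ?_⟩
      intro x hx y hy hxy
      rw [List.mem_singleton] at hy
      exact h.2 ⟨x, hx, hxy.trans hy⟩
    · exact ih

lemma en_mem {f : ℕ → ℕ → ℕ} {k n x : ℕ} (hx : x ∈ en f k n) : ∃ t, f x t ≤ k := by
  induction n with
  | zero => exact absurd hx List.not_mem_nil
  | succ n ih =>
    rw [en_succ] at hx
    split_ifs at hx with h
    · rw [List.mem_append, List.mem_singleton] at hx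
      rcases hx with hx | rfl
      · exact ih hx
      · exact ⟨_, h.1⟩
    · exact ih hx

lemma mem_en {f : ℕ → ℕ → ℕ} {k x t : ℕ} (h : f x t ≤ k) : x ∈ en f k (Nat.pair x t + 1) := by
  rw [en_succ]
  simp only [Nat.unpair_pair]
  split_ifs with h1
  · simp
  · by_contra h2
    apply h1
    refine ⟨h, ?_⟩
    rintro ⟨y, hy, rfl⟩
    exact h2 hy

lemma c_en {f : ℕ → ℕ → ℕ} (hf : Computable₂ f) {α : Type*} [Primcodable α] {k n : α → ℕ}
    (hk : Computable k) (hn : Computable n) : Computable fun x => en f (k x) (n x) := by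
  have hmem : Computable fun x : List ℕ × ℕ => decide (∃ y ∈ x.1, y = x.2) := by
    have := (PrimrecRel.exists_mem_list (α := ℕ) (β := ℕ) (R := fun y z => y = z) Primrec.eq).decide
    exact this.to_comp
  unfold en
  refine Computable.nat_rec (f := n) (g := fun _ => ([] : List ℕ))
    (h := fun x y => if f y.1.unpair.1 y.1.unpair.2 ≤ k x ∧ ¬ (∃ z ∈ y.2, z = y.1.unpair.1) then
      y.2 ++ [y.1.unpair.1] else y.2) hn (Computable.const _) ?_
  have u1 : Computable fun p : α × ℕ × List ℕ => p.2.1.unpair.1 :=
    Computable.fst.comp (Computable.unpair.comp (Computable.fst.comp Computable.snd))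
  have u2 : Computable fun p : α × ℕ × List ℕ => p.2.1.unpair.2 :=
    Computable.snd.comp (Computable.unpair.comp (Computable.fst.comp Computable.snd))
  have acc : Computable fun p : α × ℕ × List ℕ => p.2.2 := Computable.snd.comp Computable.snd
  refine c_ite (p := fun p : α × ℕ × List ℕ => f p.2.1.unpair.1 p.2.1.unpair.2 ≤ k p.1 ∧
    ¬ (∃ z ∈ p.2.2, z = p.2.1.unpair.1)) ?_ ((Primrec.list_concat.to_comp).comp acc u1) acc
  have h3 : Computable fun p : α × ℕ × List ℕ =>
      (decide (f p.2.1.unpair.1 p.2.1.unpair.2 ≤ k p.1) &&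
        !(decide (∃ z ∈ p.2.2, z = p.2.1.unpair.1))) :=
    c_and (c_le (hf.comp u1 u2) (hk.comp Computable.fst))
      (c_not (hmem.comp (Computable.pair acc u1)))
  refine h3.of_eq fun p => ?_
  rw [Bool.eq_iff_iff]
  simp only [Bool.and_eq_true, decide_eq_true_eq, Bool.not_eq_true', decide_eq_false_iff_not]

/-- the machine that prints the `bval p`-th number of complexity at most `p.length - 1` -/
def VP (str : ℕ → List Bool) (f : ℕ → ℕ → ℕ) (p : List Bool) : Part (List Bool) :=
  (Nat.rfind (fun n => Part.some (decide (bval p < (en f (p.length - 1) n).length)))).map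
    (fun n => str ((en f (p.length - 1) n).getD (bval p) 0))

lemma VP_partrec {str : ℕ → List Bool} {f : ℕ → ℕ → ℕ} (hs : Computable str)
    (hf : Computable₂ f) : Partrec (VP str f) := by
  have hbv : Computable bval := primrec_bval.to_comp
  have hen : Computable (fun x : List Bool × ℕ => en f (x.1.length - 1) x.2) :=
    c_en hf (c_sub (Computable.list_length.comp Computable.fst) (Computable.const 1))
      Computable.snd
  have h1 : Partrec (fun p : List Bool =>
      Nat.rfind (fun n => Part.some (decide (bval p < (en f (p.length - 1) n).length)))) := by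
    have h2 : Computable₂ (fun (p : List Bool) (n : ℕ) =>
        decide (bval p < (en f (p.length - 1) n).length)) :=
      c_lt (hbv.comp Computable.fst) (Computable.list_length.comp hen)
    exact Partrec.rfind h2.partrec₂
  refine h1.map ?_
  exact hs.comp ((Primrec.list_getD (0:ℕ)).to_comp.comp hen (hbv.comp Computable.fst))

lemma VP_mem {str : ℕ → List Bool} {f : ℕ → ℕ → ℕ} {C' : ℕ → ℕ}
    (hfC : ∀ x, (∀ t, C' x ≤ f x t) ∧ ∃ t, f x t = C' x) (hct : PCount C') (x : ℕ) :
    ∃ p, str x ∈ VP str f p ∧ p.length = C' x + 1 := by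
  classical
  obtain ⟨t, ht⟩ := (hfC x).2
  set k := C' x with hk
  have hx : x ∈ en f k (Nat.pair x t + 1) := mem_en ht.le
  set L := en f k (Nat.pair x t + 1) with hL
  have hlen : L.length ≤ 2^(k+1) := by
    rw [← List.toFinset_card_of_nodup (en_nodup f k _)]
    apply hct
    intro y hy
    rw [List.mem_toFinset] at hy
    obtain ⟨s, hs⟩ := en_mem hy
    exact ((hfC y).1 s).trans hs
  obtain ⟨i, hi, hix⟩ := List.getElem_of_mem hx
  obtain ⟨p, hpl, hpv⟩ := exists_bval (k+1) i (by omega)
  refine ⟨p, ?_, hpl⟩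
  have hpk : p.length - 1 = k := by omega
  unfold VP
  rw [hpk, hpv]
  obtain ⟨n, hn, hnle⟩ := Nat.rfind_min' (p := fun n => decide (i < (en f k n).length))
    (m := Nat.pair x t + 1) (by simpa using hi)
  have hn' : i < (en f k n).length := by
    have := Part.mem_some_iff.1 (Nat.rfind_spec hn)
    simpa using this.symm
  rw [Part.mem_map_iff]
  refine ⟨n, hn, ?_⟩
  congr 1
  rw [List.getD_eq_getElem _ _ hn']
  have hpre := en_prefix f k hnle
  rw [← hix]
  exact hpre.getElem hn'

section plain
variable {U : List Bool →. List Bool} (hU : OptPlain U) (str : ℕ ≃ List Bool)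

include hU in
/-- `n ↦ C(n)` is plain complexity in the abstract sense -/
lemma isPlain_cx (hs : Computable str) : IsPlain (fun n => cx U (str n)) := by
  classical
  obtain ⟨c₀, hc₀⟩ := hU.2 (fun p => Part.some p) Computable.id.partrec
  have hT : ∀ x, ∃ p, x ∈ U p ∧ p.length ≤ x.length + c₀ := fun x => hc₀ x x (Part.mem_some _)
  refine ⟨?_, ?_, ?_⟩
  · exact usc_gen (fun p _ => U p) (hU.1.comp Computable.fst) str hs
      (fun z => (str z).length + c₀) (c_add (Computable.list_length.comp hs) (Computable.const c₀))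
      (fun z => hT (str z))
  · intro k S hS
    exact count_gen U str str.injective (fun z => (hT (str z)).imp fun _ h => h.1) k S hS
  · intro C' husc hct
    obtain ⟨f, hf, hfC⟩ := husc
    obtain ⟨c, hc⟩ := hU.2 (VP str f) (VP_partrec hs hf)
    refine ⟨1 + c, fun n => ?_⟩
    obtain ⟨p, hp, hpl⟩ := VP_mem (str := str) hfC hct n
    obtain ⟨q, hq, hql⟩ := hc p _ hp
    exact (Nat.sInf_le ⟨q, rfl, hq⟩ : cx U (str n) ≤ q.length).trans (by omega)

end plain

/-! ### conditional prefix complexity -/

section cond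
variable {W : List Bool → List Bool →. List Bool} (hW : OptCondPFree W) (str : ℕ ≃ List Bool)
  (pr : List Bool → List Bool → List Bool)

/-- the code of the condition -/
def cnd (y : ℕ) : List Bool := pr (str y.unpair.1) (str y.unpair.2)

/-- the abstract conditional complexity -/
noncomputable def QQ (W : List Bool → List Bool →. List Bool) (z : ℕ) : ℕ :=
  ccx W (str z.unpair.1) (cnd str pr z.unpair.2)

include hW in
lemma cond_total : ∃ c₀, ∀ x y, ∃ p, x ∈ W p y ∧ p.length ≤ Encodable.encode x + 1 + c₀ := by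
  have hV : CondPFree (fun p _ => V0 p) :=
    ⟨V0_pf.1.comp Computable.fst, fun _ p q hp hq h => V0_pf.2 p q hp hq h⟩
  obtain ⟨c₀, hc₀⟩ := hW.2 _ hV
  refine ⟨c₀, fun x y => ?_⟩
  obtain ⟨p, hp, hl⟩ := hc₀ _ x y (V0_mem x)
  rw [length_una] at hl
  exact ⟨p, hp, hl⟩

include hW in
lemma usc_QQ (hs : Computable str) (hpr : Computable₂ pr) : USC (QQ str pr W) := by
  obtain ⟨c₀, hc₀⟩ := cond_total hW
  have u1 : Computable fun z : ℕ => z.unpair.1 := Computable.fst.comp Computable.unpair
  have u2 : Computable fun z : ℕ => z.unpair.2 := Computable.snd.comp Computable.unpair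
  have hcnd : Computable (cnd str pr) := hpr.comp (hs.comp u1) (hs.comp u2)
  refine usc_gen (fun p z => W p (cnd str pr z.unpair.2)) ?_ (fun z => str z.unpair.1)
    (hs.comp u1) (fun z => Encodable.encode (str z.unpair.1) + 1 + c₀)
    (c_add (c_add (Computable.encode.comp (hs.comp u1)) (Computable.const 1))
      (Computable.const c₀)) (fun z => hc₀ _ _)
  exact hW.1.1.comp Computable.fst (hcnd.comp (u2.comp Computable.snd))

include hW in
lemma count_QQ (k y : ℕ) (S : Finset ℕ) (hS : ∀ v ∈ S, QQ str pr W (Nat.pair v y) ≤ k) :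
    S.card ≤ 2^(k+1) := by
  obtain ⟨c₀, hc₀⟩ := cond_total hW
  refine count_gen (fun p => W p (cnd str pr y)) str str.injective
    (fun z => (hc₀ (str z) _).imp fun _ h => h.1) k S ?_
  intro v hv
  have := hS v hv
  unfold QQ ccx at this
  simpa only [Nat.unpair_pair] using this

end cond

/-- `K(C(n) | n, K(n))` is unbounded -/
theorem unbounded (str : ℕ ≃ List Bool) (hs : Computable str)
    (pr : List Bool → List Bool → List Bool) (hpr : Computable₂ pr)
    (U V : List Bool →. List Bool) (W : List Bool → List Bool →. List Bool)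
    (hU : OptPlain U) (hV : OptPFree V) (hW : OptCondPFree W) (c : ℕ) :
    ∃ n : ℕ, c < ccx W (str (cx U (str n))) (pr (str n) (str (cx V (str n)))) := by
  obtain ⟨x, hx⟩ := core (isKP_cx hV str hs) (isPlain_cx hU str hs) (usc_QQ hW str pr hs hpr)
    (count_QQ hW str pr) c
  refine ⟨x, ?_⟩
  unfold QQ cnd at hx
  simpa only [Nat.unpair_pair] using hx

end Pool.Agent.TH676.CK
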