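import Mathlib
import Pool.Agent.TH676.CK.Defs
import Pool.Agent.Helper981.KP.Machine

/-!
Optimal machines exist.
-/

set_option autoImplicit false
open Finset

namespace Pool.Agent.TH676.CK

open Pool.Agent.Helper981.KP (ones length_ones primrec_ones una length_una primrec_una una_pf)
open Nat.Partrec (Code)
open Nat.Partrec.Code (eval evaln)

/-! ### programs `1^e 0 p` -/

lemma ones_eq (e : ℕ) : ones e = List.replicate e true := by
  unfold ones
  rw [List.map_const', List.length_range]

/-- the number `e` of a program `1^e 0 p` -/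
def eP (P : List Bool) : ℕ := (P.takeWhile (fun b => b)).length

/-- the rest `p` of a program `1^e 0 p` -/
def rP (P : List Bool) : List Bool := P.drop (eP P + 1)

lemma eP_una (e : ℕ) (p : List Bool) : eP (una e ++ p) = e := by
  unfold eP una
  rw [ones_eq, List.append_assoc, List.takeWhile_append_of_pos]
  · simp
  · intro a ha
    exact (List.mem_replicate.1 ha).2

lemma rP_una (e : ℕ) (p : List Bool) : rP (una e ++ p) = p := by
  unfold rP
  rw [eP_una, ← length_una e, List.drop_left]

lemma primrec_eP : Primrec eP :=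
  Primrec.list_length.comp (Primrec.list_takeWhile Primrec.id)

lemma primrec_rP : Primrec rP :=
  Primrec.list_drop.comp (Primrec.succ.comp primrec_eP) Primrec.id

lemma una_append_pf {e e' : ℕ} {p p' : List Bool} (h : una e ++ p <+: una e' ++ p') :
    e = e' ∧ p <+: p' := by
  have h1 : una e <+: una e' ++ p' := (List.prefix_append _ _).trans h
  have h2 : una e' <+: una e' ++ p' := List.prefix_append _ _
  have h3 : e = e' := by
    rcases List.prefix_or_prefix_of_prefix h1 h2 with h4 | h4
    · exact una_pf h4
    · exact (una_pf h4).symm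
  subst h3
  exact ⟨rfl, (List.prefix_append_right_inj _).1 h⟩

/-! ### plain machines -/

theorem exists_optPlain : ∃ U : List Bool →. List Bool, OptPlain U := by
  refine ⟨fun P => (eval (Denumerable.ofNat Code (eP P)) (Encodable.encode (rP P))).bind
    fun v => ((Encodable.decode v : Option (List Bool)) : Part (List Bool)), ?_, ?_⟩
  · refine Partrec.bind ?_ ?_
    · exact Nat.Partrec.Code.eval_part.comp
        (((Primrec.ofNat Code).comp primrec_eP).to_comp)
        ((Primrec.encode.comp primrec_rP).to_comp)
    · exact (Computable.decode.comp Computable.snd).ofOption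
  · intro V hV
    obtain ⟨c, hc⟩ := Nat.Partrec.Code.exists_code.1 hV
    refine ⟨Encodable.encode c + 1, fun p x hx => ⟨una (Encodable.encode c) ++ p, ?_, ?_⟩⟩
    · beta_reduce
      rw [eP_una, rP_una, Denumerable.ofNat_encode, hc]
      simp only [Encodable.encodek, Part.coe_some, Part.bind_some]
      rw [Part.mem_bind_iff]
      refine ⟨Encodable.encode x, Part.mem_map _ hx, ?_⟩
      rw [Encodable.encodek]
      exact Part.mem_some x
    · rw [List.length_append, length_una]
      omega

/-! ### conditional prefix-free machines -/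

/-- `n` is a halting time of the machine number `e` on program `p` and condition `y` -/
def ht (e : ℕ) (y p : List Bool) (n : ℕ) : Prop :=
  n.unpair.1 = Encodable.encode p ∧
    (evaln n.unpair.2 (Denumerable.ofNat Code e) (Encodable.encode (p, y))).isSome = true

instance (e : ℕ) (y p : List Bool) (n : ℕ) : Decidable (ht e y p n) := by
  unfold ht; infer_instance

/-- `p` and `q` are different and one extends the other -/
def cmpb (p q : List Bool) : Prop := p ≠ q ∧ (q.take p.length = p ∨ p.take q.length = q)

instance (p q : List Bool) : Decidable (cmpb p q) := by unfold cmpb; infer_instance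

/-- at time `n` the machine number `e` halts on a program comparable with `p` -/
def bd (e : ℕ) (y p : List Bool) (n : ℕ) : Prop :=
  ht e y ((Encodable.decode n.unpair.1 : Option (List Bool)).getD []) n ∧
    cmpb p ((Encodable.decode n.unpair.1 : Option (List Bool)).getD [])

instance (e : ℕ) (y p : List Bool) (n : ℕ) : Decidable (bd e y p n) := by
  unfold bd; infer_instance

lemma primrec_ht {α : Type*} [Primcodable α] {e : α → ℕ} {y p : α → List Bool} {n : α → ℕ}
    (he : Primrec e) (hy : Primrec y) (hp : Primrec p) (hn : Primrec n) :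
    PrimrecPred fun x => ht (e x) (y x) (p x) (n x) := by
  unfold ht
  refine PrimrecPred.and ?_ ?_
  · exact Primrec.eq.comp (Primrec.fst.comp (Primrec.unpair.comp hn)) (Primrec.encode.comp hp)
  · refine Primrec.eq.comp (Primrec.option_isSome.comp ?_) (Primrec.const true)
    exact Nat.Partrec.Code.primrec_evaln.comp (Primrec.pair (Primrec.pair
      (Primrec.snd.comp (Primrec.unpair.comp hn)) ((Primrec.ofNat Code).comp he))
        (Primrec.encode.comp (Primrec.pair hp hy)))

lemma primrec_cmpb {α : Type*} [Primcodable α] {p q : α → List Bool}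
    (hp : Primrec p) (hq : Primrec q) : PrimrecPred fun x => cmpb (p x) (q x) := by
  unfold cmpb
  refine PrimrecPred.and (PrimrecPred.not (Primrec.eq.comp hp hq)) (PrimrecPred.or ?_ ?_)
  · exact Primrec.eq.comp (Primrec.list_take.comp (Primrec.list_length.comp hp) hq) hp
  · exact Primrec.eq.comp (Primrec.list_take.comp (Primrec.list_length.comp hq) hp) hq

lemma primrec_bd {α : Type*} [Primcodable α] {e : α → ℕ} {y p : α → List Bool} {n : α → ℕ}
    (he : Primrec e) (hy : Primrec y) (hp : Primrec p) (hn : Primrec n) :
    PrimrecPred fun x => bd (e x) (y x) (p x) (n x) := by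
  have h1 : Primrec fun x => (Encodable.decode (n x).unpair.1 : Option (List Bool)).getD [] :=
    Primrec.option_getD.comp (Primrec.decode.comp (Primrec.fst.comp (Primrec.unpair.comp hn)))
      (Primrec.const [])
  unfold bd
  exact PrimrecPred.and (primrec_ht he hy h1 hn) (primrec_cmpb hp h1)

/-- no comparable program halts before time `n` -/
def good (e : ℕ) (y p : List Bool) (n : ℕ) : Prop := ∀ n' < n, ¬ bd e y p n'

instance (e : ℕ) (y p : List Bool) (n : ℕ) : Decidable (good e y p n) := by
  unfold good; infer_instance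

lemma primrec_good {α : Type*} [Primcodable α] {e : α → ℕ} {y p : α → List Bool} {n : α → ℕ}
    (he : Primrec e) (hy : Primrec y) (hp : Primrec p) (hn : Primrec n) :
    PrimrecPred fun x => good (e x) (y x) (p x) (n x) := by
  have h1 : PrimrecRel fun (n' : ℕ) (x : α) => ¬ bd (e x) (y x) (p x) n' :=
    PrimrecPred.not (primrec_bd (he.comp Primrec.snd) (hy.comp Primrec.snd)
      (hp.comp Primrec.snd) Primrec.fst)
  have h2 := (PrimrecRel.forall_mem_list h1).comp (Primrec.list_range.comp hn) Primrec.id
  refine h2.of_eq fun x => ?_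
  unfold good
  simp only [List.mem_range, id]

/-- the machine number `e`, made prefix-free -/
def Wf (e : ℕ) (y p : List Bool) : Part (List Bool) :=
  (Nat.rfind fun n => Part.some (decide (ht e y p n))).bind fun n =>
    ((if good e y p n then
      (evaln n.unpair.2 (Denumerable.ofNat Code e) (Encodable.encode (p, y))).bind
        (fun v => (Encodable.decode v : Option (List Bool))) else none : Option (List Bool)) :
      Part (List Bool))

lemma Wf_dom {e : ℕ} {y p : List Bool} (h : (Wf e y p).Dom) :
    ∃ n, ht e y p n ∧ good e y p n := by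
  obtain ⟨x, hx⟩ := Part.dom_iff_mem.1 h
  unfold Wf at hx
  rw [Part.mem_bind_iff] at hx
  obtain ⟨n, hn, hx⟩ := hx
  refine ⟨n, ?_, ?_⟩
  · have := Part.mem_some_iff.1 (Nat.rfind_spec hn)
    simpa using this.symm
  · by_contra hg
    rw [if_neg hg] at hx
    simp at hx

lemma cmpb_of_prefix {p q : List Bool} (hne : p ≠ q) (h : p <+: q) : cmpb p q :=
  ⟨hne, Or.inl (List.prefix_iff_eq_take.1 h).symm⟩

lemma cmpb_symm {p q : List Bool} (h : cmpb p q) : cmpb q p := ⟨h.1.symm, h.2.symm⟩

lemma bd_of_ht {e : ℕ} {y p q : List Bool} {n : ℕ} (h : ht e y q n) (hc : cmpb p q) :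
    bd e y p n := by
  unfold bd
  rw [h.1, Encodable.encodek, Option.getD_some]
  exact ⟨h, hc⟩

lemma Wf_pf {e : ℕ} {y p q : List Bool} (hp : (Wf e y p).Dom) (hq : (Wf e y q).Dom)
    (h : p <+: q) : p = q := by
  by_contra hne
  obtain ⟨n, hn, hgn⟩ := Wf_dom hp
  obtain ⟨n', hn', hgn'⟩ := Wf_dom hq
  have hc := cmpb_of_prefix hne h
  rcases Nat.lt_trichotomy n n' with hlt | heq | hgt
  · exact hgn' n hlt (bd_of_ht hn (cmpb_symm hc))
  · have e1 := hn.1
    have e2 := hn'.1
    rw [heq, e2] at e1
    exact hne (Encodable.encode_injective e1.symm)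
  · exact hgn n' hgt (bd_of_ht hn' hc)

lemma Wf_mem {V : List Bool → List Bool →. List Bool} (hV : CondPFree V) {c : Code}
    (hev : ∀ p y : List Bool, eval c (Encodable.encode (p, y)) =
      (V p y).map Encodable.encode)
    {p y x : List Bool} (hx : x ∈ V p y) : x ∈ Wf (Encodable.encode c) y p := by
  have h1 : Encodable.encode x ∈ eval c (Encodable.encode (p, y)) := by
    rw [hev]; exact Part.mem_map _ hx
  obtain ⟨s, hs⟩ := Nat.Partrec.Code.evaln_complete.1 h1
  have hht : ht (Encodable.encode c) y p (Nat.pair (Encodable.encode p) s) := by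
    unfold ht
    rw [Nat.unpair_pair, Denumerable.ofNat_encode]
    refine ⟨rfl, ?_⟩
    rw [Option.mem_def.1 hs]
    rfl
  obtain ⟨n, hn, -⟩ := Nat.rfind_min' (p := fun n => decide (ht (Encodable.encode c) y p n))
    (m := Nat.pair (Encodable.encode p) s) (by simpa using hht)
  have hn' : ht (Encodable.encode c) y p n := by
    have := Part.mem_some_iff.1 (Nat.rfind_spec hn)
    simpa using this.symm
  have hg : good (Encodable.encode c) y p n := by
    intro n' _ hb
    unfold bd at hb
    obtain ⟨hb1, hb2⟩ := hb
    set r := (Encodable.decode n'.unpair.1 : Option (List Bool)).getD [] with hr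
    have hd : (V r y).Dom := by
      have h2 := hb1.2
      rw [Denumerable.ofNat_encode, Option.isSome_iff_exists] at h2
      obtain ⟨v, hv⟩ := h2
      have h3 := Nat.Partrec.Code.evaln_sound (Option.mem_def.2 hv)
      rw [hev] at h3
      have h4 := Part.dom_iff_mem.2 ⟨v, h3⟩
      exact h4
    have hdp : (V p y).Dom := Part.dom_iff_mem.2 ⟨x, hx⟩
    obtain ⟨hne, h5 | h5⟩ := hb2
    · exact hne (hV.2 y p r hdp hd (List.prefix_iff_eq_take.2 h5.symm))
    · exact hne (hV.2 y r p hd hdp (List.prefix_iff_eq_take.2 h5.symm)).symm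
  unfold Wf
  rw [Part.mem_bind_iff]
  refine ⟨n, hn, ?_⟩
  rw [if_pos hg]
  have h2 := hn'.2
  rw [Denumerable.ofNat_encode, Option.isSome_iff_exists] at h2
  obtain ⟨v, hv⟩ := h2
  have h3 := Nat.Partrec.Code.evaln_sound (Option.mem_def.2 hv)
  have h4 : v = Encodable.encode x := Part.mem_unique h3 h1
  rw [Denumerable.ofNat_encode, hv, h4]
  simp

/-- the universal conditional prefix-free machine -/
def Wu (P y : List Bool) : Part (List Bool) :=
  ((if P = una (eP P) ++ rP P then some () else none : Option Unit) : Part Unit).bind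
    fun _ => Wf (eP P) y (rP P)

lemma Wu_una (e : ℕ) (p y : List Bool) : Wu (una e ++ p) y = Wf e y p := by
  unfold Wu
  rw [eP_una, rP_una, if_pos rfl]
  simp

lemma Wu_dom {P y : List Bool} (h : (Wu P y).Dom) :
    P = una (eP P) ++ rP P ∧ (Wf (eP P) y (rP P)).Dom := by
  obtain ⟨x, hx⟩ := Part.dom_iff_mem.1 h
  unfold Wu at hx
  rw [Part.mem_bind_iff] at hx
  obtain ⟨u, hu, hx⟩ := hx
  refine ⟨?_, Part.dom_iff_mem.2 ⟨x, hx⟩⟩
  by_contra hc
  rw [if_neg hc] at hu
  simp at hu

lemma Wu_partrec : Partrec₂ Wu := by
  have hP : Primrec fun x : List Bool × List Bool => x.1 := Primrec.fst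
  have h1 : Partrec fun x : List Bool × List Bool =>
      ((if x.1 = una (eP x.1) ++ rP x.1 then some () else none : Option Unit) : Part Unit) := by
    refine Computable.ofOption ?_
    refine (Primrec.ite ?_ (Primrec.const (some ())) (Primrec.const none)).to_comp
    exact Primrec.eq.comp hP (Primrec.list_append.comp (primrec_una.comp (primrec_eP.comp hP))
      (primrec_rP.comp hP))
  have h2 : Partrec fun x : List Bool × List Bool => Wf (eP x.1) x.2 (rP x.1) := by
    unfold Wf
    refine Partrec.bind ?_ ?_
    · have h3 : Primrec₂ fun (x : List Bool × List Bool) (n : ℕ) =>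
          decide (ht (eP x.1) x.2 (rP x.1) n) :=
        (primrec_ht (α := (List Bool × List Bool) × ℕ) (primrec_eP.comp (Primrec.fst.comp Primrec.fst))
          (Primrec.snd.comp Primrec.fst) (primrec_rP.comp (Primrec.fst.comp Primrec.fst))
          Primrec.snd).decide
      exact Partrec.rfind h3.to_comp.partrec₂
    · refine Computable.ofOption ?_
      refine (Primrec.ite ?_ ?_ (Primrec.const none)).to_comp
      · exact primrec_good (α := (List Bool × List Bool) × ℕ)
          (primrec_eP.comp (Primrec.fst.comp Primrec.fst))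
          (Primrec.snd.comp Primrec.fst) (primrec_rP.comp (Primrec.fst.comp Primrec.fst))
          Primrec.snd
      · refine Primrec.option_bind ?_ ?_
        · exact Nat.Partrec.Code.primrec_evaln.comp (Primrec.pair (Primrec.pair
            (Primrec.snd.comp (Primrec.unpair.comp Primrec.snd))
            ((Primrec.ofNat Code).comp (primrec_eP.comp (Primrec.fst.comp Primrec.fst))))
            (Primrec.encode.comp (Primrec.pair (primrec_rP.comp (Primrec.fst.comp Primrec.fst))
              (Primrec.snd.comp Primrec.fst))))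
        · exact (Primrec.decode.comp Primrec.snd).to₂
  exact h1.bind (h2.comp Computable.fst).to₂

theorem exists_optCondPFree : ∃ W : List Bool → List Bool →. List Bool, OptCondPFree W := by
  refine ⟨Wu, ⟨Wu_partrec, ?_⟩, ?_⟩
  · intro y P Q hP hQ h
    obtain ⟨h1, h2⟩ := Wu_dom hP
    obtain ⟨h3, h4⟩ := Wu_dom hQ
    rw [h1, h3] at h
    obtain ⟨h5, h6⟩ := una_append_pf h
    rw [h5] at h2
    have h7 := Wf_pf h2 h4 h6
    rw [h1, h3, h5, h7]
  · intro V hV
    have hV' : Partrec (fun x : List Bool × List Bool => V x.1 x.2) := hV.1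
    obtain ⟨c, hc⟩ := Nat.Partrec.Code.exists_code.1 hV'
    refine ⟨Encodable.encode c + 1, fun p x y hx => ⟨una (Encodable.encode c) ++ p, ?_, ?_⟩⟩
    · rw [Wu_una]
      refine Wf_mem hV ?_ hx
      intro p y
      rw [hc]
      simp only [Encodable.encodek, Part.coe_some, Part.bind_some]
    · rw [List.length_append, length_una]
      omega

theorem exists_optPFree : ∃ V : List Bool →. List Bool, OptPFree V := by
  obtain ⟨W, hW1, hW2⟩ := exists_optCondPFree
  refine ⟨fun p => W p [], ⟨?_, ?_⟩, ?_⟩
  · exact hW1.1.comp Computable.id (Computable.const [])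
  · intro p q hp hq h
    exact hW1.2 [] p q hp hq h
  · intro V hV
    have hV' : CondPFree (fun p _ => V p) :=
      ⟨hV.1.comp Computable.fst, fun _ p q hp hq h => hV.2 p q hp hq h⟩
    obtain ⟨c, hc⟩ := hW2 _ hV'
    exact ⟨c, fun p x hx => hc p x [] hx⟩

end Pool.Agent.TH676.CK
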